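import Mathlib

set_option autoImplicit false

/-! Zero-sum families of bounded integer vectors split into small zero-sum blocks. -/

namespace Pool.Agent.H614R2.Tri

open Finset

/-- In a zero-sum family of more than `2 * M` integers bounded by `M` there is a nonempty zero-sum
subfamily of size at most `2 * M`. -/
theorem exists_zero_sum {ι : Type*} [DecidableEq ι] (I : Finset ι) (v : ι → ℤ) (M : ℕ)
    (hv : ∀ i ∈ I, |v i| ≤ M) (h0 : ∑ i ∈ I, v i = 0) (hM : 1 ≤ M) (hI : 2 * M ≤ #I) :
    ∃ J ⊆ I, J.Nonempty ∧ ∑ i ∈ J, v i = 0 ∧ #J ≤ 2 * M := by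
  -- a chain of subsets with bounded sums
  have chain : ∀ L ≤ #I, ∃ S : ℕ → Finset ι, (∀ k ≤ L, S k ⊆ I) ∧ (∀ k ≤ L, #(S k) = k) ∧
      (∀ k < L, S k ⊆ S (k + 1)) ∧ (∀ k ≤ L, -(M : ℤ) < ∑ i ∈ S k, v i ∧ ∑ i ∈ S k, v i ≤ M) := by
    intro L
    induction L with
    | zero =>
      intro _
      refine ⟨fun _ => ∅, by simp, ?_, by simp, ?_⟩
      · intro k hk; simp; omega
      · intro k hk; simp; omega
    | succ L ih =>
      intro hL
      obtain ⟨S, hS1, hS2, hS3, hS4⟩ := ih (by omega)
      have hne : (I \ S L).Nonempty := by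
        rw [← Finset.card_pos, Finset.card_sdiff_of_subset (hS1 L le_rfl), hS2 L le_rfl]
        omega
      have hsum : ∑ i ∈ I \ S L, v i = - ∑ i ∈ S L, v i := by
        have := Finset.sum_sdiff (f := v) (hS1 L le_rfl)
        linarith
      obtain ⟨hb1, hb2⟩ := hS4 L le_rfl
      have hex : ∃ i ∈ I \ S L, -(M : ℤ) < ∑ i ∈ S L, v i + v i ∧ ∑ i ∈ S L, v i + v i ≤ M := by
        by_cases hpos : 0 < ∑ i ∈ S L, v i
        · have : ∃ i ∈ I \ S L, v i < 0 := by
            refine Finset.exists_lt_of_sum_lt (s := I \ S L) (f := v) (g := fun _ => (0:ℤ)) ?_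
            simp only [Finset.sum_const_zero]; rw [hsum]; omega
          obtain ⟨i, hi, hvi⟩ := this
          have := hv i (Finset.sdiff_subset hi)
          rw [abs_le] at this
          exact ⟨i, hi, by omega, by omega⟩
        · have : ∃ i ∈ I \ S L, 0 ≤ v i := by
            refine Finset.exists_le_of_sum_le (s := I \ S L) (f := fun _ => (0:ℤ)) (g := v) hne ?_
            simp only [Finset.sum_const_zero]; rw [hsum]; omega
          obtain ⟨i, hi, hvi⟩ := this
          have := hv i (Finset.sdiff_subset hi)
          rw [abs_le] at this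
          exact ⟨i, hi, by omega, by omega⟩
      obtain ⟨i, hi, hi1, hi2⟩ := hex
      have hi' := Finset.mem_sdiff.mp hi
      refine ⟨fun k => if k ≤ L then S k else insert i (S L), ?_, ?_, ?_, ?_⟩
      · intro k hk
        by_cases h : k ≤ L
        · simp only [h, if_true]; exact hS1 k h
        · simp only [h, if_false]
          exact Finset.insert_subset hi'.1 (hS1 L le_rfl)
      · intro k hk
        by_cases h : k ≤ L
        · simp only [h, if_true]; exact hS2 k h
        · simp only [h, if_false]
          rw [Finset.card_insert_of_notMem hi'.2, hS2 L le_rfl]; omega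
      · intro k hk
        by_cases h : k + 1 ≤ L
        · have h' : k ≤ L := by omega
          simp only [h, h', if_true]
          exact hS3 k (by omega)
        · have h' : k = L := by omega
          subst h'
          simp only [le_refl, if_true, h, if_false]
          exact Finset.subset_insert _ _
      · intro k hk
        by_cases h : k ≤ L
        · simp only [h, if_true]; exact hS4 k h
        · simp only [h, if_false]
          rw [Finset.sum_insert hi'.2]
          constructor <;> linarith
  obtain ⟨S, hS1, hS2, hS3, hS4⟩ := chain (2 * M) hI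
  have hmono : ∀ a b, a ≤ b → b ≤ 2 * M → S a ⊆ S b := by
    intro a b hab
    induction b with
    | zero => intro _; have : a = 0 := by omega
              subst this; exact Finset.Subset.refl _
    | succ b ih =>
      intro hb
      by_cases h : a = b + 1
      · subst h; exact Finset.Subset.refl _
      · exact (ih (by omega) (by omega)).trans (hS3 b (by omega))
  obtain ⟨a, ha, b, hb, hab, heq⟩ := Finset.exists_ne_map_eq_of_card_lt_of_maps_to
    (s := Finset.range (2 * M + 1)) (t := Finset.Ioc (-(M : ℤ)) M)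
    (f := fun k => ∑ i ∈ S k, v i) (by simp; omega) (by
      intro k hk
      simp only [Finset.coe_range, Set.mem_Iio] at hk
      simp only [Finset.coe_Ioc, Set.mem_Ioc]
      exact hS4 k (by omega))
  simp only [Finset.mem_range] at ha hb
  wlog hlt : a < b generalizing a b
  · exact this b a hab.symm heq.symm hb ha (by omega)
  refine ⟨S b \ S a, Finset.sdiff_subset.trans (hS1 b (by omega)), ?_, ?_, ?_⟩
  · rw [← Finset.card_pos, Finset.card_sdiff_of_subset (hmono a b (by omega) (by omega)),
      hS2 a (by omega), hS2 b (by omega)]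
    omega
  · have := Finset.sum_sdiff (f := v) (hmono a b (by omega) (by omega))
    linarith
  · rw [Finset.card_sdiff_of_subset (hmono a b (by omega) (by omega)),
      hS2 a (by omega), hS2 b (by omega)]
    omega

/-- One-dimensional block decomposition. -/
theorem blocks_one {ι : Type*} [DecidableEq ι] (v : ι → ℤ) (M : ℕ) (hM : 1 ≤ M) (n : ℕ) :
    ∀ (I : Finset ι), #I = n → (∀ i ∈ I, |v i| ≤ M) → ∑ i ∈ I, v i = 0 →
    ∃ b : ι → ℕ, ∀ k, ∑ i ∈ I with b i = k, v i = 0 ∧ #{i ∈ I | b i = k} ≤ 2 * M := by
  induction n using Nat.strong_induction_on with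
  | _ n ih =>
    intro I hn hv h0
    by_cases hI : 2 * M ≤ #I
    · obtain ⟨J, hJ, hne, hJ0, hJc⟩ := exists_zero_sum I v M hv h0 hM hI
      have hcard : #(I \ J) = #I - #J := Finset.card_sdiff_of_subset hJ
      have hpos := Finset.card_pos.mpr hne
      have hle := Finset.card_le_card hJ
      obtain ⟨b, hb⟩ := ih (#(I \ J)) (by omega) (I \ J) rfl
        (fun i hi => hv i (Finset.sdiff_subset hi)) (by
          have := Finset.sum_sdiff (f := v) hJ
          linarith)
      refine ⟨fun i => if i ∈ J then 0 else b i + 1, ?_⟩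
      intro k
      rcases k with _ | k
      · have : ({i ∈ I | (if i ∈ J then 0 else b i + 1) = 0} : Finset ι) = J := by
          ext i
          simp only [Finset.mem_filter]
          constructor
          · rintro ⟨_, h2⟩
            by_contra h3
            simp [h3] at h2
          · intro h; exact ⟨hJ h, by simp [h]⟩
        rw [this]
        exact ⟨hJ0, hJc⟩
      · have : ({i ∈ I | (if i ∈ J then 0 else b i + 1) = k + 1} : Finset ι) =
            {i ∈ I \ J | b i = k} := by
          ext i
          simp only [Finset.mem_filter, Finset.mem_sdiff]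
          by_cases h : i ∈ J
          · simp [h]
          · simp [h]
        rw [this]
        exact hb k
    · refine ⟨fun _ => 0, ?_⟩
      intro k
      rcases k with _ | k
      · simp only [Finset.filter_true]
        exact ⟨h0, by omega⟩
      · simp

/-- Block decomposition in dimension `d`. -/
theorem blocks (d : ℕ) : ∀ (ι : Type) [DecidableEq ι] (M : ℕ), 1 ≤ M → ∀ (I : Finset ι)
    (v : ι → ℕ → ℤ), (∀ i ∈ I, ∀ j < d, |v i j| ≤ M) → (∀ j < d, ∑ i ∈ I, v i j = 0) →
    ∃ b : ι → ℕ, ∀ k, (∀ j < d, ∑ i ∈ I with b i = k, v i j = 0) ∧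
      #{i ∈ I | b i = k} ≤ (2 * M) ^ (2 ^ d - 1) := by
  induction d with
  | zero =>
    intro ι _ M hM I v _ _
    obtain ⟨b, hb⟩ := Set.countable_iff_exists_injOn.mp (I.finite_toSet.countable)
    refine ⟨b, fun k => ⟨by simp, ?_⟩⟩
    simp only [pow_zero, Nat.sub_self]
    rw [Finset.card_le_one]
    intro x hx y hy
    simp only [Finset.mem_filter] at hx hy
    exact hb (by simpa using hx.1) (by simpa using hy.1) (hx.2.trans hy.2.symm)
  | succ d ih =>
    intro ι _ M hM I v hv h0
    obtain ⟨b₁, hb₁⟩ := blocks_one (fun i => v i d) M hM _ I rfl (fun i hi => hv i hi d (by omega))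
      (h0 d (by omega))
    obtain ⟨b₂, hb₂⟩ := ih ℕ (2 * M * M) (by nlinarith) (I.image b₁)
      (fun k j => ∑ i ∈ I with b₁ i = k, v i j) (by
        intro k _ j hj
        calc |∑ i ∈ I with b₁ i = k, v i j| ≤ ∑ i ∈ I with b₁ i = k, |v i j| :=
              Finset.abs_sum_le_sum_abs _ _
          _ ≤ ∑ i ∈ I with b₁ i = k, (M : ℤ) := by
              apply Finset.sum_le_sum
              intro i hi
              exact hv i (Finset.mem_filter.mp hi).1 j (by omega)
          _ = #{i ∈ I | b₁ i = k} * (M : ℤ) := by simp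
          _ ≤ ((2 * M : ℕ) : ℤ) * M := by
              apply mul_le_mul_of_nonneg_right _ (by positivity)
              exact_mod_cast (hb₁ k).2
          _ = ((2 * M * M : ℕ) : ℤ) := by push_cast; ring) (by
        intro j hj
        rw [Finset.sum_fiberwise_of_maps_to (fun i hi => Finset.mem_image_of_mem b₁ hi)]
        exact h0 j (by omega))
    have hfib : ∀ (k : ℕ) (f : ι → ℤ), ∑ i ∈ I with b₂ (b₁ i) = k, f i =
        ∑ l ∈ I.image b₁ with b₂ l = k, ∑ i ∈ I with b₁ i = l, f i := by
      intro k f
      rw [← Finset.sum_fiberwise_of_maps_to (s := {i ∈ I | b₂ (b₁ i) = k})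
        (t := {l ∈ I.image b₁ | b₂ l = k}) (g := b₁) (by
          intro i hi
          simp only [Finset.mem_filter] at hi ⊢
          exact ⟨Finset.mem_image_of_mem _ hi.1, hi.2⟩)]
      apply Finset.sum_congr rfl
      intro l hl
      apply Finset.sum_congr _ (fun _ _ => rfl)
      ext i
      simp only [Finset.mem_filter] at hl ⊢
      constructor
      · rintro ⟨⟨h1, _⟩, h3⟩; exact ⟨h1, h3⟩
      · rintro ⟨h1, h3⟩; exact ⟨⟨h1, by rw [h3]; exact hl.2⟩, h3⟩
    refine ⟨fun i => b₂ (b₁ i), fun k => ⟨?_, ?_⟩⟩
    · intro j hj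
      rw [hfib k (fun i => v i j)]
      by_cases hjd : j < d
      · exact (hb₂ k).1 j hjd
      · have : j = d := by omega
        subst this
        apply Finset.sum_eq_zero
        intro l _
        exact (hb₁ l).1
    · have h1 : (#{i ∈ I | b₂ (b₁ i) = k} : ℤ) =
          ∑ l ∈ I.image b₁ with b₂ l = k, (#{i ∈ I | b₁ i = l} : ℤ) := by
        have := hfib k (fun _ => 1)
        simpa using this
      have h2 : (#{i ∈ I | b₂ (b₁ i) = k} : ℤ) ≤ #{l ∈ I.image b₁ | b₂ l = k} * (2 * M : ℕ) := by
        rw [h1]
        calc ∑ l ∈ I.image b₁ with b₂ l = k, (#{i ∈ I | b₁ i = l} : ℤ)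
            ≤ ∑ l ∈ I.image b₁ with b₂ l = k, ((2 * M : ℕ) : ℤ) := by
              apply Finset.sum_le_sum
              intro l _
              exact_mod_cast (hb₁ l).2
          _ = _ := by simp
      have h3 : #{i ∈ I | b₂ (b₁ i) = k} ≤ #{l ∈ I.image b₁ | b₂ l = k} * (2 * M) := by
        exact_mod_cast h2
      refine h3.trans ((Nat.mul_le_mul_right _ (hb₂ k).2).trans (le_of_eq ?_))
      have h4 : 2 * (2 * M * M) = (2 * M) ^ 2 := by ring
      rw [h4, ← pow_mul, ← pow_succ]
      congr 1
      have : 1 ≤ 2 ^ d := Nat.one_le_two_pow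
      rw [pow_succ]
      omega

end Pool.Agent.H614R2.Tri
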