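import Mathlib
import Pool.Agent.H614R2.Tri.Block

set_option autoImplicit false

/-! Balanced role assignments and the exchange argument. -/

namespace Pool.Agent.H614R2.Tri

open Finset

/-- Number of points `p < N` of role `r`. -/
def cnt (N : ℕ) (φ : ℕ → ℕ) (r : ℕ) : ℕ := #{p ∈ range N | φ p = r}

/-- Roles are `< R`; the roles `3 * τ`, `3 * τ + 1`, `3 * τ + 2` are used equally often. -/
def Bal (R N : ℕ) (φ : ℕ → ℕ) : Prop :=
  (∀ p < N, φ p < R) ∧ ∀ r < R, r % 3 ≠ 2 → cnt N φ r = cnt N φ (r + 1)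

/-- Total weight of an assignment. -/
def val (w : ℕ → ℕ → ℝ) (N : ℕ) (φ : ℕ → ℕ) : ℝ := ∑ p ∈ range N, w p (φ p)

/-- Optimal balanced assignment. -/
def Opt (R N : ℕ) (w : ℕ → ℕ → ℝ) (φ : ℕ → ℕ) : Prop :=
  Bal R N φ ∧ ∀ ψ, Bal R N ψ → val w N ψ ≤ val w N φ

/-- Contribution of a role. -/
def sg (a r : ℕ) : ℤ := (if a = r then 1 else 0) - (if a = r + 1 then 1 else 0)

theorem sg_abs (a r : ℕ) : |sg a r| ≤ 1 := by
  unfold sg
  split_ifs <;> simp

theorem sum_sg (N : ℕ) (φ : ℕ → ℕ) (r : ℕ) :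
    ∑ p ∈ range N, sg (φ p) r = (cnt N φ r : ℤ) - cnt N φ (r + 1) := by
  simp only [sg, Finset.sum_sub_distrib, cnt, Finset.sum_boole]

theorem bal_iff (R N : ℕ) (φ : ℕ → ℕ) : Bal R N φ ↔
    (∀ p < N, φ p < R) ∧ ∀ r < R, r % 3 ≠ 2 → ∑ p ∈ range N, sg (φ p) r = 0 := by
  unfold Bal
  refine and_congr_right fun _ => ?_
  refine forall_congr' fun r => forall_congr' fun _ => forall_congr' fun _ => ?_
  rw [sum_sg]
  omega

theorem sum_ite_swap (S D : Finset ℕ) (hD : D ⊆ S) (f g : ℕ → ℤ) :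
    ∑ p ∈ S, (if p ∈ D then f p else g p) = ∑ p ∈ S, g p + ∑ p ∈ D, (f p - g p) := by
  rw [← Finset.sum_sdiff hD, ← Finset.sum_sdiff (f := g) hD, add_assoc, ← Finset.sum_add_distrib]
  congr 1
  · apply Finset.sum_congr rfl
    intro p hp
    simp [(Finset.mem_sdiff.mp hp).2]
  · apply Finset.sum_congr rfl
    intro p hp
    simp [hp]

theorem exchange {R N : ℕ} {w : ℕ → ℕ → ℝ} {φ ψ : ℕ → ℕ} (hφ : Opt R N w φ)
    (hψ : Opt R (N + 3) w ψ) :
    ∃ ψ', Opt R (N + 3) w ψ' ∧ #{p ∈ range N | ψ' p ≠ φ p} ≤ 3 * 4 ^ (2 ^ R - 1) := by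
  classical
  obtain ⟨hφ1, hφ2⟩ := (bal_iff _ _ _).mp hφ.1
  obtain ⟨hψ1, hψ2⟩ := (bal_iff _ _ _).mp hψ.1
  set I : Finset ℕ := {p ∈ range (N + 3) | N ≤ p ∨ ψ p ≠ φ p} with hI
  set v : ℕ → ℕ → ℤ := fun p r =>
    if r % 3 = 2 then 0 else sg (ψ p) r - (if p < N then sg (φ p) r else 0) with hv
  have hbound : ∀ p ∈ I, ∀ r < R, |v p r| ≤ (2 : ℕ) := by
    intro p _ r _
    simp only [hv]
    have h1 := sg_abs (ψ p) r
    have h2 := sg_abs (φ p) r
    rw [abs_le] at h1 h2 ⊢
    split_ifs <;> constructor <;> push_cast <;> omega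
  have hN3 : ∀ f : ℕ → ℤ, ∑ p ∈ range (N + 3), (if p < N then f p else 0) = ∑ p ∈ range N, f p := by
    intro f
    rw [Finset.sum_range_succ, Finset.sum_range_succ, Finset.sum_range_succ]
    simp only [lt_irrefl, if_false, add_zero, show ¬ (N + 1 < N) by omega,
      show ¬ (N + 2 < N) by omega]
    exact Finset.sum_congr rfl fun p hp => by simp [Finset.mem_range.mp hp]
  have hzero : ∀ r < R, ∑ p ∈ I, v p r = 0 := by
    intro r hr
    have h1 : ∑ p ∈ I, v p r = ∑ p ∈ range (N + 3), v p r := by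
      apply Finset.sum_subset (Finset.filter_subset _ _)
      intro p hp hpI
      simp only [Finset.mem_filter, not_and, not_or, not_le, ne_eq, not_not, hI] at hpI
      obtain ⟨h2, h3⟩ := hpI hp
      simp [hv, h2, h3]
    rw [h1]
    simp only [hv]
    by_cases h3 : r % 3 = 2
    · simp [h3]
    · simp only [h3, if_false]
      rw [Finset.sum_sub_distrib, hN3, hφ2 r hr h3, hψ2 r hr h3, sub_zero]
  obtain ⟨b, hb⟩ := blocks R ℕ 2 (by norm_num) I v hbound hzero
  set D : Finset ℕ := {p ∈ I | b p ≠ b N ∧ b p ≠ b (N + 1) ∧ b p ≠ b (N + 2)} with hD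
  have hDN : ∀ p ∈ D, p < N := by
    intro p hp
    simp only [hD, hI, Finset.mem_filter, Finset.mem_range] at hp
    obtain ⟨⟨h1, _⟩, h2, h3, h4⟩ := hp
    by_contra h5
    have : p = N ∨ p = N + 1 ∨ p = N + 2 := by omega
    rcases this with h | h | h <;> subst h
    · exact h2 rfl
    · exact h3 rfl
    · exact h4 rfl
  have hDsub : D ⊆ range N := fun p hp => Finset.mem_range.mpr (hDN p hp)
  have hDsub3 : D ⊆ range (N + 3) := fun p hp => Finset.mem_range.mpr (by have := hDN p hp; omega)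
  have hDsum : ∀ r < R, r % 3 ≠ 2 → ∑ p ∈ D, (sg (ψ p) r - sg (φ p) r) = 0 := by
    intro r hr h3
    have h1 : ∑ p ∈ D, (sg (ψ p) r - sg (φ p) r) = ∑ p ∈ D, v p r := by
      apply Finset.sum_congr rfl
      intro p hp
      simp [hv, h3, hDN p hp]
    rw [h1, ← Finset.sum_fiberwise_of_maps_to (t := D.image b)
      (fun i hi => Finset.mem_image_of_mem b hi)]
    apply Finset.sum_eq_zero
    intro k hk
    obtain ⟨p, hp, hpk⟩ := Finset.mem_image.mp hk
    have h2 : ({i ∈ D | b i = k} : Finset ℕ) = {i ∈ I | b i = k} := by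
      ext i
      simp only [hD, Finset.mem_filter] at hp ⊢
      constructor
      · rintro ⟨⟨h4, _⟩, h5⟩; exact ⟨h4, h5⟩
      · rintro ⟨h4, h5⟩
        refine ⟨⟨h4, ?_⟩, h5⟩
        rw [h5, ← hpk]
        exact hp.2
    rw [h2]
    exact (hb k).1 r hr
  set φ' : ℕ → ℕ := fun p => if p ∈ D then ψ p else φ p with hφ'
  set ψ' : ℕ → ℕ := fun p => if p ∈ D then φ p else ψ p with hψ'
  have hbφ : Bal R N φ' := by
    rw [bal_iff]
    refine ⟨?_, ?_⟩
    · intro p hp
      simp only [hφ']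
      split_ifs
      · exact hψ1 p (by omega)
      · exact hφ1 p hp
    · intro r hr h3
      have : ∀ p, sg (φ' p) r = if p ∈ D then sg (ψ p) r else sg (φ p) r := by
        intro p; simp only [hφ']; split_ifs <;> rfl
      simp only [this]
      rw [sum_ite_swap _ _ hDsub, hφ2 r hr h3, hDsum r hr h3, add_zero]
  have hbψ : Bal R (N + 3) ψ' := by
    rw [bal_iff]
    refine ⟨?_, ?_⟩
    · intro p hp
      simp only [hψ']
      split_ifs with h
      · exact hφ1 p (hDN p h)
      · exact hψ1 p hp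
    · intro r hr h3
      have : ∀ p, sg (ψ' p) r = if p ∈ D then sg (φ p) r else sg (ψ p) r := by
        intro p; simp only [hψ']; split_ifs <;> rfl
      simp only [this]
      rw [sum_ite_swap _ _ hDsub3, hψ2 r hr h3, zero_add]
      have h4 := hDsum r hr h3
      rw [← neg_eq_zero, ← Finset.sum_neg_distrib]
      simpa using h4
  have hval : val w N φ' + val w (N + 3) ψ' = val w N φ + val w (N + 3) ψ := by
    have h0 : ∀ j, N + j ∉ D := fun j h => by have := hDN _ h; omega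
    have h1 : val w N φ' + val w N ψ' = val w N φ + val w N ψ := by
      simp only [val, ← Finset.sum_add_distrib]
      apply Finset.sum_congr rfl
      intro p _
      simp only [hφ', hψ']
      split_ifs
      · ring
      · rfl
    have h2 : ∀ χ : ℕ → ℕ, val w (N + 3) χ = val w N χ + (w N (χ N) + w (N + 1) (χ (N + 1))
        + w (N + 2) (χ (N + 2))) := by
      intro χ
      simp only [val, Finset.sum_range_succ]
      ring
    rw [h2 ψ', h2 ψ]
    have h3 : ψ' N = ψ N := by simp only [hψ']; exact if_neg (h0 0)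
    have h4 : ψ' (N + 1) = ψ (N + 1) := by simp only [hψ']; rw [if_neg (h0 1)]
    have h5 : ψ' (N + 2) = ψ (N + 2) := by simp only [hψ']; rw [if_neg (h0 2)]
    rw [h3, h4, h5]
    linarith
  refine ⟨ψ', ⟨hbψ, ?_⟩, ?_⟩
  · intro χ hχ
    have h1 := hφ.2 φ' hbφ
    have h2 := hψ.2 χ hχ
    linarith
  · have hsub : ({p ∈ range N | ψ' p ≠ φ p} : Finset ℕ) ⊆
        ({p ∈ I | b p = b N} ∪ {p ∈ I | b p = b (N + 1)}) ∪ {p ∈ I | b p = b (N + 2)} := by
      intro p hp
      simp only [Finset.mem_filter, Finset.mem_range] at hp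
      obtain ⟨h1, h2⟩ := hp
      have h3 : p ∉ D := by
        intro h
        simp [hψ', h] at h2
      have h4 : ψ p ≠ φ p := by
        simpa [hψ', h3] using h2
      have h5 : p ∈ I := by
        simp only [hI, Finset.mem_filter, Finset.mem_range]
        exact ⟨by omega, Or.inr h4⟩
      simp only [hD, Finset.mem_filter, not_and_or, not_not] at h3
      simp only [Finset.mem_union, Finset.mem_filter]
      tauto
    have hc := Finset.card_le_card hsub
    have h1 := (hb (b N)).2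
    have h2 := (hb (b (N + 1))).2
    have h3 := (hb (b (N + 2))).2
    have h4 := Finset.card_union_le ({p ∈ I | b p = b N} ∪ {p ∈ I | b p = b (N + 1)})
      {p ∈ I | b p = b (N + 2)}
    have h5 := Finset.card_union_le ({p ∈ I | b p = b N} : Finset ℕ) {p ∈ I | b p = b (N + 1)}
    have h6 : 2 * 2 = 4 := rfl
    rw [h6] at h1 h2 h3
    omega

end Pool.Agent.H614R2.Tri
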