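import Mathlib
import Pool.Agent.H614R2.Tri.Exchange

set_option autoImplicit false

/-! Candidate points and enumeration. -/

namespace Pool.Agent.H614R2.Tri

open Finset

theorem two_point {M : Type*} [AddCommMonoid M] (S : Finset ℕ) (g g' : ℕ → M) {p p' : ℕ}
    (hp : p ∈ S) (hp' : p' ∈ S) (hne : p ≠ p') (h : ∀ x ∈ S, x ≠ p → x ≠ p' → g x = g' x) :
    ∑ x ∈ S, g' x + (g p + g p') = ∑ x ∈ S, g x + (g' p + g' p') := by
  have hsub : ({p, p'} : Finset ℕ) ⊆ S := by
    intro x hx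
    simp only [Finset.mem_insert, Finset.mem_singleton] at hx
    rcases hx with h | h <;> subst h <;> assumption
  rw [← Finset.sum_sdiff hsub, ← Finset.sum_sdiff (f := g) hsub, Finset.sum_pair hne,
    Finset.sum_pair hne]
  have : ∑ x ∈ S \ {p, p'}, g' x = ∑ x ∈ S \ {p, p'}, g x := by
    apply Finset.sum_congr rfl
    intro x hx
    simp only [Finset.mem_sdiff, Finset.mem_insert, Finset.mem_singleton, not_or] at hx
    exact (h x hx.1 hx.2.1 hx.2.2).symm
  rw [this]
  abel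

/-- Gain when the point `p` changes its role to `r`. -/
def gn (w : ℕ → ℕ → ℝ) (φ : ℕ → ℕ) (r p : ℕ) : ℝ := w p r - w p (φ p)

/-- The point `p'` has the same role as `p` and is to be preferred when the role changes to `r`. -/
def Bt (w : ℕ → ℕ → ℝ) (φ : ℕ → ℕ) (r p' p : ℕ) : Prop :=
  φ p' = φ p ∧ (gn w φ r p < gn w φ r p' ∨ (¬ gn w φ r p' < gn w φ r p ∧ p' < p))

theorem Bt.irrefl (w : ℕ → ℕ → ℝ) (φ : ℕ → ℕ) (r p : ℕ) : ¬ Bt w φ r p p := by
  rintro ⟨_, h | h⟩
  · exact lt_irrefl _ h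
  · exact lt_irrefl _ h.2

theorem Bt.trans {w : ℕ → ℕ → ℝ} {φ : ℕ → ℕ} {r p p' p'' : ℕ} (h : Bt w φ r p p')
    (h' : Bt w φ r p' p'') : Bt w φ r p p'' := by
  obtain ⟨h1, h2⟩ := h
  obtain ⟨h3, h4⟩ := h'
  refine ⟨h1.trans h3, ?_⟩
  rcases h2 with h2 | ⟨h2, h5⟩ <;> rcases h4 with h4 | ⟨h4, h6⟩
  · left; exact h4.trans h2
  · left; exact lt_of_le_of_lt (not_lt.mp h4) h2
  · left; exact lt_of_lt_of_le h4 (not_lt.mp h2)
  · by_cases h7 : gn w φ r p'' < gn w φ r p
    · left; exact h7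
    · right
      exact ⟨not_lt.mpr ((not_lt.mp h4).trans (not_lt.mp h2)), h5.trans h6⟩

theorem Bt.total {w : ℕ → ℕ → ℝ} {φ : ℕ → ℕ} {r p p' : ℕ} (h : φ p = φ p') (hne : p ≠ p') :
    Bt w φ r p p' ∨ Bt w φ r p' p := by
  rcases lt_trichotomy (gn w φ r p) (gn w φ r p') with h1 | h1 | h1
  · right; exact ⟨h.symm, Or.inl h1⟩
  · rcases lt_or_gt_of_ne hne with h2 | h2
    · left; exact ⟨h, Or.inr ⟨by rw [h1]; exact lt_irrefl _, h2⟩⟩
    · right; exact ⟨h.symm, Or.inr ⟨by rw [h1]; exact lt_irrefl _, h2⟩⟩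
  · left; exact ⟨h, Or.inl h1⟩

open Classical in
/-- Rank of a point. -/
noncomputable def rk (N : ℕ) (w : ℕ → ℕ → ℝ) (φ : ℕ → ℕ) (r p : ℕ) : ℕ :=
  #{p' ∈ range N | Bt w φ r p' p}

theorem rk_lt {N : ℕ} {w : ℕ → ℕ → ℝ} {φ : ℕ → ℕ} {r p p' : ℕ} (hp' : p' < N)
    (h : Bt w φ r p' p) : rk N w φ r p' < rk N w φ r p := by
  classical
  unfold rk
  apply Finset.card_lt_card
  rw [Finset.ssubset_iff_of_subset]
  · refine ⟨p', ?_, ?_⟩
    · simp [hp', h]
    · simp [Bt.irrefl]
  · intro x hx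
    simp only [Finset.mem_filter] at hx ⊢
    exact ⟨hx.1, hx.2.trans h⟩

/-- The set of points that may change their role. -/
def Cand (R N K : ℕ) (w : ℕ → ℕ → ℝ) (φ : ℕ → ℕ) (p : ℕ) : Prop :=
  ∃ r < R, rk N w φ r p < K

open Classical in
theorem card_cand (R N K : ℕ) (w : ℕ → ℕ → ℝ) (φ : ℕ → ℕ) (hφ : ∀ p < N, φ p < R) :
    #{p ∈ range N | Cand R N K w φ p} ≤ R * R * K := by
  have hsub : ({p ∈ range N | Cand R N K w φ p} : Finset ℕ) ⊆
      (range R ×ˢ range R).biUnion fun q => {p ∈ range N | φ p = q.1 ∧ rk N w φ q.2 p < K} := by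
    intro p hp
    rw [Finset.mem_filter, Finset.mem_range] at hp
    obtain ⟨h1, r, h2, h3⟩ := hp
    simp only [Finset.mem_biUnion, Finset.mem_product, Finset.mem_range, Finset.mem_filter]
    exact ⟨(φ p, r), ⟨hφ p h1, h2⟩, h1, rfl, h3⟩
  refine (Finset.card_le_card hsub).trans ?_
  refine (Finset.card_biUnion_le_card_mul _ _ K ?_).trans ?_
  · rintro ⟨r, r'⟩ _
    have : K = #(range K) := by simp
    conv_rhs => rw [this]
    apply Finset.card_le_card_of_injOn (rk N w φ r')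
    · intro p hp
      simp only [Finset.coe_filter, Finset.mem_range, Set.mem_ofPred_eq] at hp
      simp only [Finset.coe_range, Set.mem_Iio]
      exact hp.2.2
    · intro p hp p' hp' heq
      simp only [Finset.coe_filter, Finset.mem_range, Set.mem_ofPred_eq] at hp hp'
      by_contra hne
      rcases Bt.total (w := w) (r := r') (hp.2.1.trans hp'.2.1.symm) hne with h | h
      · have := rk_lt hp.1 h; omega
      · have := rk_lt hp'.1 h; omega
  · simp

theorem cnt_perm (N : ℕ) (ψ : ℕ → ℕ) (r p p' : ℕ) (hp : p < N) (hp' : p' < N) :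
    cnt N (fun x => ψ (Equiv.swap p p' x)) r = cnt N ψ r := by
  unfold cnt
  apply Finset.card_bij (fun x _ => Equiv.swap p p' x)
  · intro x hx
    simp only [Finset.mem_filter, Finset.mem_range] at hx ⊢
    refine ⟨?_, hx.2⟩
    rw [Equiv.swap_apply_def]
    split_ifs <;> [exact hp'; exact hp; exact hx.1]
  · intro x _ y _ h
    exact (Equiv.swap p p').injective h
  · intro y hy
    simp only [Finset.mem_filter, Finset.mem_range] at hy
    refine ⟨Equiv.swap p p' y, ?_, by simp⟩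
    simp only [Finset.mem_filter, Finset.mem_range, Equiv.swap_apply_self, hy.2, and_true]
    rw [Equiv.swap_apply_def]
    split_ifs <;> [exact hp'; exact hp; exact hy.1]

theorem good_exists {R N K : ℕ} {w : ℕ → ℕ → ℝ} {φ : ℕ → ℕ} (n : ℕ) :
    ∀ ψ, Opt R (N + 3) w ψ → #{p ∈ range N | ψ p ≠ φ p} ≤ K →
      ∑ p ∈ range N, (if ψ p ≠ φ p then rk N w φ (ψ p) p else 0) = n →
      ∃ ψ', Opt R (N + 3) w ψ' ∧ ∀ p < N, ψ' p ≠ φ p → rk N w φ (ψ' p) p < K := by
  classical
  induction n using Nat.strong_induction_on with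
  | _ n ih =>
    intro ψ hψ hc hn
    by_cases hall : ∀ p < N, ψ p ≠ φ p → rk N w φ (ψ p) p < K
    · exact ⟨ψ, hψ, hall⟩
    push Not at hall
    obtain ⟨p, hp, hne, hrk⟩ := hall
    -- an unchanged better point
    have hex : ∃ p' < N, Bt w φ (ψ p) p' p ∧ ψ p' = φ p' := by
      by_contra hcon
      push Not at hcon
      have hsub : insert p ({p' ∈ range N | Bt w φ (ψ p) p' p} : Finset ℕ) ⊆
          {p ∈ range N | ψ p ≠ φ p} := by
        intro x hx
        simp only [Finset.mem_insert, Finset.mem_filter, Finset.mem_range] at hx ⊢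
        rcases hx with h | ⟨h1, h2⟩
        · subst h; exact ⟨hp, hne⟩
        · exact ⟨h1, hcon x h1 h2⟩
      have := Finset.card_le_card hsub
      rw [Finset.card_insert_of_notMem (by simp [Bt.irrefl])] at this
      unfold rk at hrk
      omega
    obtain ⟨p', hp', hbt, heq⟩ := hex
    have hpp : p ≠ p' := by
      rintro rfl; exact Bt.irrefl _ _ _ _ hbt
    have hφφ : φ p' = φ p := hbt.1
    set ψ' : ℕ → ℕ := fun x => ψ (Equiv.swap p p' x) with hψ'
    have e1 : ψ' p = φ p := by simp [hψ', heq, hφφ]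
    have e2 : ψ' p' = ψ p := by simp [hψ']
    have e3 : ∀ x, x ≠ p → x ≠ p' → ψ' x = ψ x := by
      intro x h1 h2
      simp [hψ', Equiv.swap_apply_of_ne_of_ne h1 h2]
    have hbal : Bal R (N + 3) ψ' := by
      refine ⟨?_, ?_⟩
      · intro x hx
        by_cases h1 : x = p
        · subst h1; rw [e1, ← hφφ, ← heq]; exact hψ.1.1 p' (by omega)
        · by_cases h2 : x = p'
          · subst h2; rw [e2]; exact hψ.1.1 p (by omega)
          · rw [e3 x h1 h2]; exact hψ.1.1 x hx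
      · intro r hr h3
        rw [cnt_perm _ _ _ _ _ (by omega) (by omega), cnt_perm _ _ _ _ _ (by omega) (by omega)]
        exact hψ.1.2 r hr h3
    have hval : val w (N + 3) ψ ≤ val w (N + 3) ψ' := by
      have h := two_point (range (N + 3)) (fun x => w x (ψ x)) (fun x => w x (ψ' x))
        (Finset.mem_range.mpr (show p < N + 3 by omega))
        (Finset.mem_range.mpr (show p' < N + 3 by omega)) hpp
        (fun x _ h1 h2 => by rw [e3 x h1 h2])
      simp only [e1, e2, heq] at h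
      have hg : gn w φ (ψ p) p ≤ gn w φ (ψ p) p' := by
        rcases hbt.2 with h | h
        · exact h.le
        · exact not_lt.mp h.1
      unfold gn at hg
      unfold val
      linarith
    have hopt : Opt R (N + 3) w ψ' := ⟨hbal, fun χ hχ => (hψ.2 χ hχ).trans hval⟩
    have hne' : ψ p ≠ φ p' := by rw [hφφ]; exact hne
    have hcard : #{p ∈ range N | ψ' p ≠ φ p} ≤ K := by
      have h := two_point (range N) (fun x => if ψ x ≠ φ x then 1 else 0)
        (fun x => if ψ' x ≠ φ x then 1 else 0)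
        (Finset.mem_range.mpr hp) (Finset.mem_range.mpr hp') hpp
        (fun x _ h1 h2 => by rw [e3 x h1 h2])
      simp only [e1, e2, heq, ne_eq, not_true_eq_false, if_false, hne, hne', not_false_eq_true,
        if_true] at h
      rw [Finset.card_filter]
      rw [Finset.card_filter] at hc
      simp only [ne_eq] at hc ⊢
      omega
    have hpot := two_point (range N) (fun x => if ψ x ≠ φ x then rk N w φ (ψ x) x else 0)
        (fun x => if ψ' x ≠ φ x then rk N w φ (ψ' x) x else 0)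
        (Finset.mem_range.mpr hp) (Finset.mem_range.mpr hp') hpp
        (fun x _ h1 h2 => by rw [e3 x h1 h2])
    simp only [e1, e2, heq, ne_eq, not_true_eq_false, if_false, hne, hne', not_false_eq_true,
        if_true] at hpot
    have hlt := rk_lt hp' hbt
    refine ih _ ?_ ψ' hopt hcard rfl
    simp only [ne_eq] at hn ⊢
    omega

/-- An optimal assignment for three more points changes only candidates. -/
theorem exists_opt_cand {R N K : ℕ} {w : ℕ → ℕ → ℝ} {φ ψ : ℕ → ℕ} (hK : 3 * 4 ^ (2 ^ R - 1) ≤ K)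
    (hφ : Opt R N w φ) (hψ : Opt R (N + 3) w ψ) :
    ∃ ψ', Opt R (N + 3) w ψ' ∧ ∀ p < N, ψ' p ≠ φ p → Cand R N K w φ p := by
  obtain ⟨ψ₁, h1, h2⟩ := exchange hφ hψ
  obtain ⟨ψ₂, h3, h4⟩ := good_exists _ ψ₁ h1 (h2.trans hK) rfl
  exact ⟨ψ₂, h3, fun p hp hne => ⟨ψ₂ p, h3.1.1 p (by omega), h4 p hp hne⟩⟩

/-- Number of marked points below `p`. -/
def mk (M : ℕ → Prop) [DecidablePred M] (p : ℕ) : ℕ := #{p' ∈ range p | M p'}

theorem mk_succ (M : ℕ → Prop) [DecidablePred M] (p : ℕ) :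
    mk M (p + 1) = mk M p + if M p then 1 else 0 := by
  unfold mk
  rw [Finset.range_add_one, Finset.filter_insert]
  split_ifs with h
  · rw [Finset.card_insert_of_notMem (by simp)]
  · rfl

theorem mk_mono (M : ℕ → Prop) [DecidablePred M] {p q : ℕ} (h : p ≤ q) : mk M p ≤ mk M q := by
  unfold mk
  exact Finset.card_le_card (Finset.filter_subset_filter _ (Finset.range_subset_range.mpr h))

/-- The assignment with code `x`. -/
def dec (R : ℕ) (M : ℕ → Prop) [DecidablePred M] (φ : ℕ → ℕ) (x p : ℕ) : ℕ :=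
  if M p then x / R ^ mk M p % R else φ p

theorem dec_surj (R : ℕ) (M : ℕ → Prop) [DecidablePred M] (φ ψ : ℕ → ℕ) (N : ℕ)
    (hψ : ∀ p < N, ψ p < R) (h : ∀ p < N, ¬ M p → ψ p = φ p) :
    ∃ x < R ^ mk M N, ∀ p < N, dec R M φ x p = ψ p := by
  induction N with
  | zero => exact ⟨0, by simp [mk], by simp⟩
  | succ N ih =>
    obtain ⟨x, hx, hx'⟩ := ih (fun p hp => hψ p (by omega)) (fun p hp => h p (by omega))
    by_cases hM : M N
    · have hR : 0 < R := lt_of_le_of_lt (Nat.zero_le _) (hψ N (by omega))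
      refine ⟨x + ψ N * R ^ mk M N, ?_, ?_⟩
      · rw [mk_succ, if_pos hM, pow_succ]
        have := hψ N (by omega)
        calc x + ψ N * R ^ mk M N < R ^ mk M N + ψ N * R ^ mk M N := by omega
          _ = (ψ N + 1) * R ^ mk M N := by ring
          _ ≤ R * R ^ mk M N := Nat.mul_le_mul_right _ this
          _ = _ := by ring
      · intro p hp
        unfold dec
        by_cases hpN : p = N
        · subst hpN
          rw [if_pos hM, Nat.add_mul_div_right _ _ (by positivity), Nat.div_eq_of_lt hx, zero_add,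
            Nat.mod_eq_of_lt (hψ p (by omega))]
        · have hlt : p < N := by omega
          rw [← hx' p hlt]
          unfold dec
          by_cases hMp : M p
          · rw [if_pos hMp, if_pos hMp]
            have hmk : mk M p + 1 ≤ mk M N := by
              have := mk_mono M (show p + 1 ≤ N by omega)
              rw [mk_succ, if_pos hMp] at this
              exact this
            obtain ⟨d, hd⟩ := Nat.exists_eq_add_of_le hmk
            have : ψ N * R ^ mk M N = (ψ N * R ^ d * R) * R ^ mk M p := by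
              rw [hd]; ring
            rw [this, Nat.add_mul_div_right _ _ (by positivity), Nat.add_mul_mod_self_right]
          · rw [if_neg hMp, if_neg hMp]
    · refine ⟨x, ?_, ?_⟩
      · rw [mk_succ, if_neg hM]; exact hx
      · intro p hp
        by_cases hpN : p = N
        · subst hpN
          unfold dec
          rw [if_neg hM, h p (by omega) hM]
        · exact hx' p (by omega)

theorem cnt_congr {N : ℕ} {φ ψ : ℕ → ℕ} (h : ∀ p < N, φ p = ψ p) (r : ℕ) :
    cnt N φ r = cnt N ψ r := by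
  unfold cnt
  congr 1
  apply Finset.filter_congr
  intro p hp
  rw [h p (Finset.mem_range.mp hp)]

theorem Bal.congr {R N : ℕ} {φ ψ : ℕ → ℕ} (hb : Bal R N φ) (h : ∀ p < N, φ p = ψ p) :
    Bal R N ψ := by
  refine ⟨fun p hp => by rw [← h p hp]; exact hb.1 p hp, fun r hr h3 => ?_⟩
  rw [← cnt_congr h, ← cnt_congr h]
  exact hb.2 r hr h3

theorem val_congr {N : ℕ} {w : ℕ → ℕ → ℝ} {φ ψ : ℕ → ℕ} (h : ∀ p < N, φ p = ψ p) :
    val w N φ = val w N ψ := by
  unfold val
  apply Finset.sum_congr rfl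
  intro p hp
  rw [h p (Finset.mem_range.mp hp)]

theorem Opt.congr {R N : ℕ} {w : ℕ → ℕ → ℝ} {φ ψ : ℕ → ℕ} (hb : Opt R N w φ)
    (h : ∀ p < N, φ p = ψ p) : Opt R N w ψ :=
  ⟨hb.1.congr h, fun χ hχ => by rw [← val_congr h]; exact hb.2 χ hχ⟩

theorem bal_mod {R k : ℕ} (hR : 3 ≤ R) : Bal R (3 * k) (fun p => p % 3) := by
  have hc : ∀ r, cnt (3 * k) (fun p => p % 3) r = if r < 3 then k else 0 := by
    intro r
    show #{p ∈ range (3 * k) | p % 3 = r} = if r < 3 then k else 0
    induction k with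
    | zero => simp
    | succ k ih =>
      have : 3 * (k + 1) = 3 * k + 1 + 1 + 1 := by ring
      rw [this, Finset.range_add_one, Finset.range_add_one, Finset.range_add_one,
        Finset.filter_insert, Finset.filter_insert, Finset.filter_insert]
      have h0 : (3 * k) % 3 = 0 := by omega
      have h1 : (3 * k + 1) % 3 = 1 := by omega
      have h2 : (3 * k + 1 + 1) % 3 = 2 := by omega
      simp only [h0, h1, h2]
      have hr : r = 0 ∨ r = 1 ∨ r = 2 ∨ 3 ≤ r := by omega
      rcases hr with rfl | rfl | rfl | hr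
      · simpa using ih
      · simpa using ih
      · simpa using ih
      · have g0 : ¬ (0 = r) := by omega
        have g1 : ¬ (1 = r) := by omega
        have g2 : ¬ (2 = r) := by omega
        have g3 : ¬ (r < 3) := by omega
        simp only [g0, g1, g2, g3, if_false] at ih ⊢
        exact ih
  refine ⟨fun p _ => by show p % 3 < R; omega, ?_⟩
  intro r _ h3
  rw [hc, hc]
  split_ifs <;> omega

open Classical in
theorem exists_opt {R k : ℕ} (hR : 3 ≤ R) (w : ℕ → ℕ → ℝ) : ∃ ψ, Opt R (3 * k) w ψ := by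
  have h1 : ∀ ψ, Bal R (3 * k) ψ → ∃ x < R ^ mk (fun _ => True) (3 * k),
      ∀ p < 3 * k, dec R (fun _ => True) ψ x p = ψ p := fun ψ hψ =>
    dec_surj R (fun _ => True) ψ ψ (3 * k) hψ.1 (fun _ _ _ => rfl)
  have hd : ∀ (ψ ψ' : ℕ → ℕ) x p, dec R (fun _ => True) ψ x p = dec R (fun _ => True) ψ' x p := by
    intro ψ ψ' x p; simp [dec]
  set S : Finset ℕ := {x ∈ range (R ^ mk (fun _ => True) (3 * k)) |
    Bal R (3 * k) (dec R (fun _ => True) (fun _ => 0) x)} with hS
  have hmem : ∀ ψ, Bal R (3 * k) ψ → ∃ x ∈ S, ∀ p < 3 * k,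
      dec R (fun _ => True) (fun _ => 0) x p = ψ p := by
    intro ψ hψ
    obtain ⟨x, hx, hx'⟩ := h1 ψ hψ
    refine ⟨x, ?_, fun p hp => by rw [hd _ ψ]; exact hx' p hp⟩
    simp only [hS, Finset.mem_filter, Finset.mem_range]
    exact ⟨hx, hψ.congr fun p hp => by rw [hd _ ψ]; exact (hx' p hp).symm⟩
  obtain ⟨x₀, hx₀, _⟩ := hmem _ (bal_mod hR)
  obtain ⟨x, hx, hmax⟩ := Finset.exists_max_image S
    (fun x => val w (3 * k) (dec R (fun _ => True) (fun _ => 0) x)) ⟨x₀, hx₀⟩
  refine ⟨dec R (fun _ => True) (fun _ => 0) x, (Finset.mem_filter.mp hx).2, ?_⟩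
  intro ψ hψ
  obtain ⟨y, hy, hy'⟩ := hmem ψ hψ
  rw [← val_congr hy']
  exact hmax y hy

/-- Correctness of one step of the algorithm: some code gives an optimal assignment, and every
best code does. -/
theorem step_opt {R k K : ℕ} {w : ℕ → ℕ → ℝ} {φ : ℕ → ℕ} (hR : 3 ≤ R)
    (hK : 3 * 4 ^ (2 ^ R - 1) ≤ K) (hφ : Opt R (3 * k) w φ) (M : ℕ → Prop) [DecidablePred M]
    (hM : ∀ p < 3 * k, Cand R (3 * k) K w φ p → M p) (hM3 : ∀ p, 3 * k ≤ p → p < 3 * k + 3 → M p) :
    (∃ x < R ^ mk M (3 * k + 3), Bal R (3 * k + 3) (dec R M φ x)) ∧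
    ∀ x < R ^ mk M (3 * k + 3), Bal R (3 * k + 3) (dec R M φ x) →
      (∀ y < R ^ mk M (3 * k + 3), Bal R (3 * k + 3) (dec R M φ y) →
        val w (3 * k + 3) (dec R M φ y) ≤ val w (3 * k + 3) (dec R M φ x)) →
      Opt R (3 * k + 3) w (dec R M φ x) := by
  obtain ⟨ψ, hψ⟩ := exists_opt (k := k + 1) hR w
  have : 3 * (k + 1) = 3 * k + 3 := by ring
  rw [this] at hψ
  obtain ⟨ψ', h1, h2⟩ := exists_opt_cand hK hφ hψ
  obtain ⟨x, hx, hx'⟩ := dec_surj R M φ ψ' (3 * k + 3) h1.1.1 (by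
    intro p hp hMp
    by_contra hne
    by_cases h3 : p < 3 * k
    · exact hMp (hM p h3 (h2 p h3 hne))
    · exact hMp (hM3 p (by omega) hp))
  have hopt : Opt R (3 * k + 3) w (dec R M φ x) := h1.congr fun p hp => (hx' p hp).symm
  refine ⟨⟨x, hx, hopt.1⟩, ?_⟩
  intro y hy hyb hmax
  refine ⟨hyb, fun χ hχ => (hopt.2 χ hχ).trans (hmax x hx hopt.1)⟩

end Pool.Agent.H614R2.Tri
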