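import Mathlib

set_option autoImplicit false

/-! A real random access machine: natural number registers, two-dimensional arrays of natural
numbers and two-dimensional arrays of real numbers, programmed by structured programs, with
explicit running time. The only operations on natural numbers are adding one and (truncated)
subtraction, so no natural number ever exceeds the largest one of the input and of the program
by more than the running time. The operations on real numbers are addition, subtraction,
multiplication and comparison; each costs one unit. -/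

namespace Pool.Agent.H614R2.Tri

/-- Memory: natural number registers `v x`, arrays of natural numbers `a r i j` and arrays of
real numbers `r x i j`. -/
@[ext]
structure Mem where
  /-- registers -/
  v : ℕ → ℕ
  /-- arrays of natural numbers -/
  a : ℕ → ℕ → ℕ → ℕ
  /-- arrays of real numbers -/
  r : ℕ → ℕ → ℕ → ℝ

/-- Write `n` to register `x`. -/
def Mem.setV (m : Mem) (x n : ℕ) : Mem := ⟨fun y => if y = x then n else m.v y, m.a, m.r⟩

/-- Write `n` to entry `(i, j)` of array `x`. -/
def Mem.setA (m : Mem) (x i j n : ℕ) : Mem :=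
  ⟨m.v, fun x' i' j' => if x' = x ∧ i' = i ∧ j' = j then n else m.a x' i' j', m.r⟩

/-- Write the real number `u` to entry `(i, j)` of the real array `x`. -/
def Mem.setR (m : Mem) (x i j : ℕ) (u : ℝ) : Mem :=
  ⟨m.v, m.a, fun x' i' j' => if x' = x ∧ i' = i ∧ j' = j then u else m.r x' i' j'⟩

/-- Expressions for natural numbers. -/
inductive IExpr where
  | lit (n : ℕ)
  | reg (x : ℕ)
  | succ (e : IExpr)
  | sub (e f : IExpr)
  | get (x : ℕ) (i j : IExpr)

/-- Value of an expression. -/
def IExpr.eval (m : Mem) : IExpr → ℕ
  | .lit n => n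
  | .reg x => m.v x
  | .succ e => e.eval m + 1
  | .sub e f => e.eval m - f.eval m
  | .get x i j => m.a x (i.eval m) (j.eval m)

/-- Time to evaluate an expression: its number of symbols. -/
def IExpr.cost : IExpr → ℕ
  | .lit _ => 1
  | .reg _ => 1
  | .succ e => e.cost + 1
  | .sub e f => e.cost + f.cost + 1
  | .get _ i j => i.cost + j.cost + 1

/-- Expressions for real numbers. -/
inductive RExpr where
  | zero
  | get (x : ℕ) (i j : IExpr)
  | add (e f : RExpr)
  | sub (e f : RExpr)
  | mul (e f : RExpr)

/-- Value of a real expression. -/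
def RExpr.eval (m : Mem) : RExpr → ℝ
  | .zero => 0
  | .get x i j => m.r x (i.eval m) (j.eval m)
  | .add e f => e.eval m + f.eval m
  | .sub e f => e.eval m - f.eval m
  | .mul e f => e.eval m * f.eval m

/-- Time to evaluate a real expression: its number of symbols. -/
def RExpr.cost : RExpr → ℕ
  | .zero => 1
  | .get _ i j => i.cost + j.cost + 1
  | .add e f => e.cost + f.cost + 1
  | .sub e f => e.cost + f.cost + 1
  | .mul e f => e.cost + f.cost + 1

/-- Tests. -/
inductive Test where
  | lt (e f : IExpr)
  | eq (e f : IExpr)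
  | rlt (e f : RExpr)
  | not (s : Test)
  | and (s t : Test)

/-- Truth of a test. -/
def Test.holds (m : Mem) : Test → Prop
  | .lt e f => e.eval m < f.eval m
  | .eq e f => e.eval m = f.eval m
  | .rlt e f => e.eval m < f.eval m
  | .not s => ¬ s.holds m
  | .and s t => s.holds m ∧ t.holds m

/-- Time to evaluate a test: its number of symbols. -/
def Test.cost : Test → ℕ
  | .lt e f => e.cost + f.cost + 1
  | .eq e f => e.cost + f.cost + 1
  | .rlt e f => e.cost + f.cost + 1
  | .not s => s.cost + 1
  | .and s t => s.cost + t.cost + 1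

/-- Programs. -/
inductive Prog where
  | skip
  | assign (x : ℕ) (e : IExpr)
  | store (x : ℕ) (i j e : IExpr)
  | rstore (x : ℕ) (i j : IExpr) (e : RExpr)
  | seq (p q : Prog)
  | ite (t : Test) (p q : Prog)
  | loop (t : Test) (p : Prog)

/-- `Runs p m m' c`: program `p` started in memory `m` stops in memory `m'` after time `c`. -/
inductive Runs : Prog → Mem → Mem → ℕ → Prop where
  | skip (m : Mem) : Runs .skip m m 1
  | assign (x : ℕ) (e : IExpr) (m : Mem) :
      Runs (.assign x e) m (m.setV x (e.eval m)) (e.cost + 1)
  | store (x : ℕ) (i j e : IExpr) (m : Mem) :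
      Runs (.store x i j e) m (m.setA x (i.eval m) (j.eval m) (e.eval m))
        (i.cost + j.cost + e.cost + 1)
  | rstore (x : ℕ) (i j : IExpr) (e : RExpr) (m : Mem) :
      Runs (.rstore x i j e) m (m.setR x (i.eval m) (j.eval m) (e.eval m))
        (i.cost + j.cost + e.cost + 1)
  | seq {p q : Prog} {m m' m'' : Mem} {c d : ℕ} :
      Runs p m m' c → Runs q m' m'' d → Runs (.seq p q) m m'' (c + d)
  | ite_true {t : Test} {p q : Prog} {m m' : Mem} {c : ℕ} :
      t.holds m → Runs p m m' c → Runs (.ite t p q) m m' (t.cost + c)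
  | ite_false {t : Test} {p q : Prog} {m m' : Mem} {c : ℕ} :
      ¬ t.holds m → Runs q m m' c → Runs (.ite t p q) m m' (t.cost + c)
  | loop_done {t : Test} {p : Prog} {m : Mem} :
      ¬ t.holds m → Runs (.loop t p) m m t.cost
  | loop_step {t : Test} {p : Prog} {m m' m'' : Mem} {c d : ℕ} :
      t.holds m → Runs p m m' c → Runs (.loop t p) m' m'' d →
      Runs (.loop t p) m m'' (t.cost + c + d)

/-- The result of a program and its running time are unique. -/
theorem Runs.unique {p : Prog} {m m' : Mem} {c : ℕ} (h : Runs p m m' c) :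
    ∀ {m'' : Mem} {d : ℕ}, Runs p m m'' d → m'' = m' ∧ d = c := by
  induction h with
  | skip m => intro m'' d h'; cases h'; exact ⟨rfl, rfl⟩
  | assign x e m => intro m'' d h'; cases h'; exact ⟨rfl, rfl⟩
  | store r i j e m => intro m'' d h'; cases h'; exact ⟨rfl, rfl⟩
  | rstore r i j e m => intro m'' d h'; cases h'; exact ⟨rfl, rfl⟩
  | seq _ _ ih1 ih2 =>
    intro m'' d h'
    cases h' with
    | seq h1 h2 =>
      obtain ⟨e1, e2⟩ := ih1 h1
      subst e1 e2
      obtain ⟨e3, e4⟩ := ih2 h2
      subst e3 e4
      exact ⟨rfl, rfl⟩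
  | ite_true ht _ ih =>
    intro m'' d h'
    cases h' with
    | ite_true _ h1 =>
      obtain ⟨e1, e2⟩ := ih h1
      subst e1 e2
      exact ⟨rfl, rfl⟩
    | ite_false hn _ => exact absurd ht hn
  | ite_false ht _ ih =>
    intro m'' d h'
    cases h' with
    | ite_true hn _ => exact absurd hn ht
    | ite_false _ h1 =>
      obtain ⟨e1, e2⟩ := ih h1
      subst e1 e2
      exact ⟨rfl, rfl⟩
  | loop_done ht =>
    intro m'' d h'
    cases h' with
    | loop_done _ => exact ⟨rfl, rfl⟩
    | loop_step hn _ _ => exact absurd hn ht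
  | loop_step ht _ _ ih1 ih2 =>
    intro m'' d h'
    cases h' with
    | loop_done hn => exact absurd ht hn
    | loop_step _ h1 h2 =>
      obtain ⟨e1, e2⟩ := ih1 h1
      subst e1 e2
      obtain ⟨e3, e4⟩ := ih2 h2
      subst e3 e4
      exact ⟨rfl, rfl⟩

end Pool.Agent.H614R2.Tri
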