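import Mathlib
import Pool.Agent.H614R2.Tri.Ram

set_option autoImplicit false

/-! Rules for the running time of programs. -/

namespace Pool.Agent.H614R2.Tri

@[simp] theorem setV_v (m : Mem) (x n y : ℕ) : (m.setV x n).v y = if y = x then n else m.v y := rfl
@[simp] theorem setV_a (m : Mem) (x n : ℕ) : (m.setV x n).a = m.a := rfl
@[simp] theorem setV_r (m : Mem) (x n : ℕ) : (m.setV x n).r = m.r := rfl
@[simp] theorem setA_v (m : Mem) (x i j n : ℕ) : (m.setA x i j n).v = m.v := rfl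
@[simp] theorem setA_a (m : Mem) (x i j n x' i' j' : ℕ) :
    (m.setA x i j n).a x' i' j' = if x' = x ∧ i' = i ∧ j' = j then n else m.a x' i' j' := rfl
@[simp] theorem setA_r (m : Mem) (x i j n : ℕ) : (m.setA x i j n).r = m.r := rfl
@[simp] theorem setR_v (m : Mem) (x i j : ℕ) (u : ℝ) : (m.setR x i j u).v = m.v := rfl
@[simp] theorem setR_a (m : Mem) (x i j : ℕ) (u : ℝ) : (m.setR x i j u).a = m.a := rfl
@[simp] theorem setR_r (m : Mem) (x i j x' i' j' : ℕ) (u : ℝ) :
    (m.setR x i j u).r x' i' j' = if x' = x ∧ i' = i ∧ j' = j then u else m.r x' i' j' := rfl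

/-- Does the program write to register `y`? -/
def Prog.wv : Prog → ℕ → Bool
  | .skip, _ => false
  | .assign x _, y => y == x
  | .store _ _ _ _, _ => false
  | .rstore _ _ _ _, _ => false
  | .seq p q, y => p.wv y || q.wv y
  | .ite _ p q, y => p.wv y || q.wv y
  | .loop _ p, y => p.wv y

/-- Does the program write to array `y`? -/
def Prog.wa : Prog → ℕ → Bool
  | .skip, _ => false
  | .assign _ _, _ => false
  | .store x _ _ _, y => y == x
  | .rstore _ _ _ _, _ => false
  | .seq p q, y => p.wa y || q.wa y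
  | .ite _ p q, y => p.wa y || q.wa y
  | .loop _ p, y => p.wa y

/-- Does the program write to real array `y`? -/
def Prog.wr : Prog → ℕ → Bool
  | .skip, _ => false
  | .assign _ _, _ => false
  | .store _ _ _ _, _ => false
  | .rstore x _ _ _, y => y == x
  | .seq p q, y => p.wr y || q.wr y
  | .ite _ p q, y => p.wr y || q.wr y
  | .loop _ p, y => p.wr y

/-- `m'` agrees with `m` outside of the registers and arrays written by `c`. -/
structure Same (c : Prog) (m m' : Mem) : Prop where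
  v : ∀ y, c.wv y = false → m'.v y = m.v y
  a : ∀ y, c.wa y = false → m'.a y = m.a y
  r : ∀ y, c.wr y = false → m'.r y = m.r y

theorem Same.refl (c : Prog) (m : Mem) : Same c m m := ⟨fun _ _ => rfl, fun _ _ => rfl, fun _ _ => rfl⟩

theorem Same.trans {c : Prog} {m m' m'' : Mem} (h : Same c m m') (h' : Same c m' m'') :
    Same c m m'' :=
  ⟨fun y hy => (h'.v y hy).trans (h.v y hy), fun y hy => (h'.a y hy).trans (h.a y hy),
   fun y hy => (h'.r y hy).trans (h.r y hy)⟩

theorem Same.seqL {c d : Prog} {m m' : Mem} (h : Same c m m') : Same (.seq c d) m m' := by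
  refine ⟨fun y hy => h.v y ?_, fun y hy => h.a y ?_, fun y hy => h.r y ?_⟩ <;>
  simp only [Prog.wv, Prog.wa, Prog.wr, Bool.or_eq_false_iff] at hy <;> exact hy.1

theorem Same.seqR {c d : Prog} {m m' : Mem} (h : Same d m m') : Same (.seq c d) m m' := by
  refine ⟨fun y hy => h.v y ?_, fun y hy => h.a y ?_, fun y hy => h.r y ?_⟩ <;>
  simp only [Prog.wv, Prog.wa, Prog.wr, Bool.or_eq_false_iff] at hy <;> exact hy.2

theorem Runs.same {c : Prog} {m m' : Mem} {t : ℕ} (h : Runs c m m' t) : Same c m m' := by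
  induction h with
  | skip m => exact Same.refl _ _
  | assign x e m =>
    refine ⟨fun y hy => ?_, fun y hy => rfl, fun y hy => rfl⟩
    simp only [Prog.wv, beq_eq_false_iff_ne] at hy
    simp [hy]
  | store x i j e m =>
    refine ⟨fun y hy => rfl, fun y hy => ?_, fun y hy => rfl⟩
    simp only [Prog.wa, beq_eq_false_iff_ne] at hy
    funext i' j'
    simp [hy]
  | rstore x i j e m =>
    refine ⟨fun y hy => rfl, fun y hy => rfl, fun y hy => ?_⟩
    simp only [Prog.wr, beq_eq_false_iff_ne] at hy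
    funext i' j'
    simp [hy]
  | seq _ _ ih1 ih2 => exact ih1.seqL.trans ih2.seqR
  | ite_true ht _ ih =>
    refine ⟨fun y hy => ih.v y ?_, fun y hy => ih.a y ?_, fun y hy => ih.r y ?_⟩ <;>
    simp only [Prog.wv, Prog.wa, Prog.wr, Bool.or_eq_false_iff] at hy <;> exact hy.1
  | ite_false ht _ ih =>
    refine ⟨fun y hy => ih.v y ?_, fun y hy => ih.a y ?_, fun y hy => ih.r y ?_⟩ <;>
    simp only [Prog.wv, Prog.wa, Prog.wr, Bool.or_eq_false_iff] at hy <;> exact hy.2
  | loop_done ht => exact Same.refl _ _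
  | loop_step ht _ _ ih1 ih2 =>
    refine Same.trans ?_ ih2
    exact ⟨fun y hy => ih1.v y hy, fun y hy => ih1.a y hy, fun y hy => ih1.r y hy⟩

/-- Coefficient of the time bound. -/
def Prog.cf : Prog → ℕ
  | .skip => 1
  | .assign _ e => e.cost + 1
  | .store _ i j e => i.cost + j.cost + e.cost + 1
  | .rstore _ i j e => i.cost + j.cost + e.cost + 1
  | .seq p q => p.cf + q.cf
  | .ite t p q => t.cost + p.cf + q.cf
  | .loop t p => 2 * t.cost + p.cf

/-- Depth of nested loops. -/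
def Prog.dp : Prog → ℕ
  | .skip => 0
  | .assign _ _ => 0
  | .store _ _ _ _ => 0
  | .rstore _ _ _ _ => 0
  | .seq p q => max p.dp q.dp
  | .ite _ p q => max p.dp q.dp
  | .loop _ p => p.dp + 1

/-- The program stops in a state satisfying `Q`, after a time at most the bound that holds if
all loops are executed at most `L` times. -/
def H (L : ℕ) (c : Prog) (m : Mem) (Q : Mem → Prop) : Prop :=
  ∃ m' t, Runs c m m' t ∧ t ≤ c.cf * (L + 1) ^ c.dp ∧ Q m'

variable {L : ℕ}

theorem H.post {c : Prog} {m : Mem} {Q Q' : Mem → Prop} (h : H L c m Q)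
    (hQ : ∀ m', Q m' → Q' m') : H L c m Q' := by
  obtain ⟨m', t, h1, h2, h3⟩ := h
  exact ⟨m', t, h1, h2, hQ _ h3⟩

theorem H.same {c : Prog} {m : Mem} {Q : Mem → Prop} (h : H L c m Q) :
    H L c m (fun m' => Q m' ∧ Same c m m') := by
  obtain ⟨m', t, h1, h2, h3⟩ := h
  exact ⟨m', t, h1, h2, h3, h1.same⟩

/-- Consequence rule with frame. -/
theorem H.next {c : Prog} {m : Mem} {Q Q' : Mem → Prop} (h : H L c m Q)
    (hQ : ∀ m', Same c m m' → Q m' → Q' m') : H L c m Q' := by
  obtain ⟨m', t, h1, h2, h3⟩ := h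
  exact ⟨m', t, h1, h2, hQ _ h1.same h3⟩

theorem pw_le {a b d e : ℕ} (h : d ≤ e) (h' : a ≤ b) : a * (L + 1) ^ d ≤ b * (L + 1) ^ e :=
  Nat.mul_le_mul h' (Nat.pow_le_pow_right (by omega) h)

theorem H.seq {c d : Prog} {m : Mem} {Q : Mem → Prop}
    (h : H L c m (fun m' => H L d m' Q)) : H L (.seq c d) m Q := by
  obtain ⟨m', t, h1, h2, m'', t', h3, h4, h5⟩ := h
  refine ⟨m'', t + t', .seq h1 h3, ?_, h5⟩
  have e1 : c.cf * (L + 1) ^ c.dp ≤ c.cf * (L + 1) ^ max c.dp d.dp := pw_le (le_max_left _ _) le_rfl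
  have e2 : d.cf * (L + 1) ^ d.dp ≤ d.cf * (L + 1) ^ max c.dp d.dp := pw_le (le_max_right _ _) le_rfl
  simp only [Prog.cf, Prog.dp, add_mul]
  omega

theorem one_le_pw (k : ℕ) : 1 ≤ (L + 1) ^ k := Nat.one_le_pow _ _ (by omega)

theorem H.skip {m : Mem} {Q : Mem → Prop} (h : Q m) : H L .skip m Q :=
  ⟨m, 1, .skip m, by simp [Prog.cf, Prog.dp], h⟩

theorem H.assign {x : ℕ} {e : IExpr} {m : Mem} {Q : Mem → Prop} (h : Q (m.setV x (e.eval m))) :
    H L (.assign x e) m Q := ⟨_, _, .assign x e m, by simp [Prog.cf, Prog.dp], h⟩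

theorem H.store {x : ℕ} {i j e : IExpr} {m : Mem} {Q : Mem → Prop}
    (h : Q (m.setA x (i.eval m) (j.eval m) (e.eval m))) :
    H L (.store x i j e) m Q := ⟨_, _, .store x i j e m, by simp [Prog.cf, Prog.dp], h⟩

theorem H.rstore {x : ℕ} {i j : IExpr} {e : RExpr} {m : Mem} {Q : Mem → Prop}
    (h : Q (m.setR x (i.eval m) (j.eval m) (e.eval m))) :
    H L (.rstore x i j e) m Q := ⟨_, _, .rstore x i j e m, by simp [Prog.cf, Prog.dp], h⟩

theorem H.ite {t : Test} {c d : Prog} {m : Mem} {Q : Mem → Prop}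
    (h1 : t.holds m → H L c m Q) (h2 : ¬ t.holds m → H L d m Q) :
    H L (.ite t c d) m Q := by
  have e1 : c.cf * (L + 1) ^ c.dp ≤ c.cf * (L + 1) ^ max c.dp d.dp := pw_le (le_max_left _ _) le_rfl
  have e2 : d.cf * (L + 1) ^ d.dp ≤ d.cf * (L + 1) ^ max c.dp d.dp := pw_le (le_max_right _ _) le_rfl
  have e3 : t.cost * 1 ≤ t.cost * (L + 1) ^ max c.dp d.dp :=
    Nat.mul_le_mul_left _ (one_le_pw _)
  by_cases ht : t.holds m
  · obtain ⟨m', s, h3, h4, h5⟩ := h1 ht
    refine ⟨m', _, .ite_true ht h3, ?_, h5⟩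
    simp only [Prog.cf, Prog.dp, add_mul]
    omega
  · obtain ⟨m', s, h3, h4, h5⟩ := h2 ht
    refine ⟨m', _, .ite_false ht h3, ?_, h5⟩
    simp only [Prog.cf, Prog.dp, add_mul]
    omega

/-- `for x = 0, …, (v y) - 1 do c`. -/
def For (x y : ℕ) (c : Prog) : Prog :=
  .seq (.assign x (.lit 0))
    (.loop (.lt (.reg x) (.reg y)) (.seq c (.assign x (.succ (.reg x)))))

/-- Rule for `For`. -/
theorem H.for (x y : ℕ) {c : Prog} {m : Mem} (hw : (x == y || c.wv x || c.wv y) = false)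
    (N : ℕ) (Inv : ℕ → Mem → Prop) (hN : m.v y = N) (hL : N ≤ L)
    (h0 : Inv 0 (m.setV x 0))
    (hstep : ∀ i < N, ∀ m', Same (For x y c) m m' → m'.v x = i → Inv i m' →
      H L c m' (fun m'' => Inv (i + 1) (m''.setV x (i + 1)))) {Q : Mem → Prop}
    (hQ : ∀ m', Same (For x y c) m m' → m'.v x = N → Inv N m' → Q m') :
    H L (For x y c) m Q := by
  simp only [Bool.or_eq_false_iff, beq_eq_false_iff_ne] at hw
  obtain ⟨⟨hxy, hx⟩, hy⟩ := hw
  have hsame0 : Same (For x y c) m (m.setV x 0) := by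
    refine ⟨fun z hz => ?_, fun _ _ => rfl, fun _ _ => rfl⟩
    simp only [For, Prog.wv, Bool.or_eq_false_iff, beq_eq_false_iff_ne] at hz
    simp [hz.1]
  have key : ∀ d i, i + d = N → ∀ m', Same (For x y c) m m' → m'.v x = i → Inv i m' →
      ∃ m'' t, Runs (.loop (.lt (.reg x) (.reg y)) (.seq c (.assign x (.succ (.reg x))))) m' m'' t ∧
        t ≤ d * (c.cf * (L + 1) ^ c.dp + 6) + 3 ∧ Inv N m'' ∧ m''.v x = N := by
    intro d
    induction d with
    | zero =>
      intro i hi m' hs hxi hI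
      have hy' : m'.v y = N := by
        rw [hs.v y, hN]
        simp only [For, Prog.wv, Bool.or_eq_false_iff, beq_eq_false_iff_ne]
        exact ⟨hxy.symm, hy, hxy.symm⟩
      have hi' : i = N := by omega
      subst hi'
      refine ⟨m', _, .loop_done ?_, ?_, hI, hxi⟩
      · simp [Test.holds, IExpr.eval, hxi, hy']
      · simp [Test.cost, IExpr.cost]
    | succ d ih =>
      intro i hi m' hs hxi hI
      have hy' : m'.v y = N := by
        rw [hs.v y, hN]
        simp only [For, Prog.wv, Bool.or_eq_false_iff, beq_eq_false_iff_ne]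
        exact ⟨hxy.symm, hy, hxy.symm⟩
      obtain ⟨m'', t, h1, h2, h3⟩ := hstep i (by omega) m' hs hxi hI
      have hs1 := h1.same
      have hx'' : m''.v x = i := by rw [hs1.v x hx, hxi]
      have h4 := Runs.seq h1 (Runs.assign x (.succ (.reg x)) m'')
      have h5 : (IExpr.succ (.reg x)).eval m'' = i + 1 := by simp [IExpr.eval, hx'']
      rw [h5] at h4
      have hs2 : Same (For x y c) m (m''.setV x (i + 1)) := by
        refine hs.trans ?_
        have := h4.same
        refine ⟨fun z hz => this.v z ?_, fun z hz => this.a z ?_, fun z hz => this.r z ?_⟩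
        · simp only [For, Prog.wv, Bool.or_eq_false_iff, beq_eq_false_iff_ne] at hz ⊢
          exact hz.2
        · simp only [For, Prog.wa, Bool.or_eq_false_iff] at hz ⊢
          exact hz.2
        · simp only [For, Prog.wr, Bool.or_eq_false_iff] at hz ⊢
          exact hz.2
      obtain ⟨m3, t3, h6, h7, h8⟩ := ih (i + 1) (by omega) _ hs2 (by simp) h3
      refine ⟨m3, _, .loop_step ?_ h4 h6, ?_, h8⟩
      · simp [Test.holds, IExpr.eval, hxi, hy']; omega
      · simp only [Test.cost, IExpr.cost]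
        nlinarith
  obtain ⟨m3, t3, h6, h7, h8⟩ := key N 0 (by omega) _ hsame0 (by simp) h0
  have hr := Runs.seq (Runs.assign x (.lit 0) m) h6
  refine ⟨m3, _, hr, ?_, hQ m3 hr.same h8.2 h8.1⟩
  simp only [IExpr.cost, Prog.cf, For, Prog.dp, Test.cost]
  have e1 : max 0 (max c.dp 0 + 1) = c.dp + 1 := by omega
  rw [e1]
  have e2 := one_le_pw (L := L) c.dp
  have e3 : N * (c.cf * (L + 1) ^ c.dp + 6) ≤ L * (c.cf * (L + 1) ^ c.dp + 6) :=
    Nat.mul_le_mul_right _ hL
  have e4 : L * 1 ≤ L * (L + 1) ^ c.dp := Nat.mul_le_mul_left _ e2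
  have e5 : (1 + 1 + (2 * (1 + 1 + 1) + (c.cf + (1 + 1 + 1)))) * (L + 1) ^ (c.dp + 1) =
      L * (c.cf * (L + 1) ^ c.dp) + 11 * (L * (L + 1) ^ c.dp) + c.cf * (L + 1) ^ c.dp +
        11 * (L + 1) ^ c.dp := by ring
  have e6 : L * (c.cf * (L + 1) ^ c.dp + 6) = L * (c.cf * (L + 1) ^ c.dp) + 6 * L := by ring
  omega

end Pool.Agent.H614R2.Tri
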