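import Mathlib
import Pool.Agent.H614R2.Tri.Hoare

set_option autoImplicit false

/-! The program. Registers: 0 `f`, 1 dimension, 2 `n`, 3 `3 * n`, 4 `2 * f`, 5 number of roles,
6 bound for the ranks, 7 step, 8 and 9 number of points before and after the step. Arrays of natural
numbers: 0 output, 1 roles, 2 marks, 3 trial roles, 4 best roles, 5, 6, 7 tables of the roles. Real
arrays: 0 functionals, 1 points, 2 values of the functionals, 3 accumulator, 4 best value. -/

namespace Pool.Agent.H614R2.Tri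

/-- Entry `e` of the one-dimensional array `x`. -/
def at0 (x : ℕ) (e : IExpr) : IExpr := .get x e (.lit 0)

/-- Count the values of register `x` below register `y` passing the test; result in `acc`. -/
def countP (x y acc : ℕ) (t : Test) : Prog :=
  .seq (.assign acc (.lit 0)) (For x y (.ite t (.assign acc (.succ (.reg acc))) .skip))

/-- Weight of role `r` for point `p`. -/
def wE (p r : IExpr) : RExpr := .sub (.get 2 p (at0 6 r)) (.get 2 p (at0 7 r))

/-- Gain of point `p` for the new role `r`. -/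
def gE (p r : IExpr) : RExpr := .sub (wE p r) (wE p (at0 1 p))

/-- Disjunction. -/
def orT (s t : Test) : Test := .not (.and (.not s) (.not t))

/-- Register 3 gets `3 * n`. -/
def c3n : Prog :=
  .seq (.assign 3 (.lit 0)) (For 24 2 (.assign 3 (.succ (.succ (.succ (.reg 3))))))

/-- Register 4 gets `2 * f`. -/
def c2f : Prog :=
  .seq (.assign 4 (.lit 0)) (For 24 0 (.assign 4 (.succ (.succ (.reg 4)))))

/-- Negated functionals. -/
def cneg : Prog :=
  .seq (.assign 25 (.reg 0)) (For 24 0 (.seq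
    (For 20 1 (.rstore 0 (.reg 25) (.reg 20) (.sub .zero (.get 0 (.reg 24) (.reg 20)))))
    (.assign 25 (.succ (.reg 25)))))

/-- Three entries of the tables. -/
def ctab3 : Prog :=
  .seq (.store 5 (.reg 5) (.lit 0) (.lit 0)) <|
  .seq (.store 6 (.reg 5) (.lit 0) (.reg 26)) <|
  .seq (.store 7 (.reg 5) (.lit 0) (.reg 28)) <|
  .seq (.assign 5 (.succ (.reg 5))) <|
  .seq (.store 5 (.reg 5) (.lit 0) (.lit 1)) <|
  .seq (.store 6 (.reg 5) (.lit 0) (.reg 27)) <|
  .seq (.store 7 (.reg 5) (.lit 0) (.reg 26)) <|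
  .seq (.assign 5 (.succ (.reg 5))) <|
  .seq (.store 5 (.reg 5) (.lit 0) (.lit 2)) <|
  .seq (.store 6 (.reg 5) (.lit 0) (.reg 28)) <|
  .seq (.store 7 (.reg 5) (.lit 0) (.reg 27)) <|
  .assign 5 (.succ (.reg 5))

/-- Tables of the roles. -/
def ctab : Prog :=
  .seq (.assign 5 (.lit 0)) (For 26 4 (For 27 4 (For 28 4 ctab3)))

/-- The bound for the ranks: repeated squaring. -/
def cK : Prog :=
  .seq (.assign 6 (.lit 4)) (For 24 5
    (.seq (.assign 17 (.lit 0))
    (.seq (For 20 6 (For 12 6 (.assign 17 (.succ (.reg 17)))))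
    (.assign 6 (.reg 17)))))

/-- Values of the functionals. -/
def cV : Prog :=
  For 10 3 (For 11 4
    (.seq (.rstore 3 (.lit 0) (.lit 0) .zero)
    (.seq (For 20 1 (.rstore 3 (.lit 0) (.lit 0) (.add (.get 3 (.lit 0) (.lit 0))
      (.mul (.get 0 (.reg 11) (.reg 20)) (.get 1 (.reg 10) (.reg 20))))))
    (.rstore 2 (.reg 10) (.reg 11) (.get 3 (.lit 0) (.lit 0))))))

/-- Point 12 is to be preferred to point 10 when the role changes to 11. -/
def tBt : Test :=
  .and (.eq (at0 1 (.reg 12)) (at0 1 (.reg 10)))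
    (orT (.rlt (gE (.reg 10) (.reg 11)) (gE (.reg 12) (.reg 11)))
      (.and (.not (.rlt (gE (.reg 12) (.reg 11)) (gE (.reg 10) (.reg 11))))
        (.lt (.reg 12) (.reg 10))))

/-- Mark the candidates among the old points. -/
def marks : Prog :=
  For 10 8 (.seq (.store 2 (.reg 10) (.lit 0) (.lit 0))
    (For 11 5 (.seq (countP 12 8 13 tBt)
      (.ite (.lt (.reg 13) (.reg 6)) (.store 2 (.reg 10) (.lit 0) (.lit 1)) .skip))))

/-- Mark the new points. -/
def marks3 : Prog :=
  .seq (.store 2 (.reg 8) (.lit 0) (.lit 1))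
  (.seq (.store 2 (.succ (.reg 8)) (.lit 0) (.lit 1))
  (.store 2 (.succ (.succ (.reg 8))) (.lit 0) (.lit 1)))

/-- Number of assignments to be tried. -/
def esize : Prog :=
  .seq (.assign 16 (.lit 1)) (For 10 9
    (.ite (.eq (at0 2 (.reg 10)) (.lit 1))
      (.seq (.assign 17 (.lit 0))
        (.seq (For 24 16 (For 20 5 (.assign 17 (.succ (.reg 17))))) (.assign 16 (.reg 17))))
      .skip))

/-- Division of register 19 by register 5. -/
def cdiv : Prog :=
  .seq (.assign 21 (.lit 0)) (.seq (.assign 25 (.lit 0))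
    (For 24 19 (.seq (.assign 25 (.succ (.reg 25)))
      (.ite (.eq (.reg 25) (.reg 5))
        (.seq (.assign 25 (.lit 0)) (.assign 21 (.succ (.reg 21)))) .skip))))

/-- Trial roles of code 18. -/
def decode : Prog :=
  .seq (.assign 19 (.reg 18)) (For 10 9
    (.ite (.eq (at0 2 (.reg 10)) (.lit 1))
      (.seq cdiv (.seq (.store 3 (.reg 10) (.lit 0) (.reg 25)) (.assign 19 (.reg 21))))
      (.store 3 (.reg 10) (.lit 0) (at0 1 (.reg 10)))))

/-- Are the trial roles balanced? -/
def check : Prog :=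
  .seq (.assign 23 (.lit 1)) (For 11 5
    (.ite (.eq (at0 5 (.reg 11)) (.lit 2)) .skip
      (.seq (countP 12 9 13 (.eq (at0 3 (.reg 12)) (.reg 11)))
      (.seq (countP 12 9 14 (.eq (at0 3 (.reg 12)) (.succ (.reg 11))))
      (.ite (.eq (.reg 13) (.reg 14)) .skip (.assign 23 (.lit 0)))))))

/-- Value of the trial roles. -/
def value : Prog :=
  .seq (.rstore 3 (.lit 0) (.lit 0) .zero)
    (For 12 9 (.rstore 3 (.lit 0) (.lit 0)
      (.add (.get 3 (.lit 0) (.lit 0)) (wE (.reg 12) (at0 3 (.reg 12))))))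

/-- Keep the best trial roles. -/
def update : Prog :=
  .ite (.and (.eq (.reg 23) (.lit 1))
      (orT (.eq (.reg 22) (.lit 0)) (.rlt (.get 4 (.lit 0) (.lit 0)) (.get 3 (.lit 0) (.lit 0)))))
    (.seq (.assign 22 (.lit 1))
    (.seq (.rstore 4 (.lit 0) (.lit 0) (.get 3 (.lit 0) (.lit 0)))
    (For 10 9 (.store 4 (.reg 10) (.lit 0) (at0 3 (.reg 10))))))
    .skip

/-- Try all assignments. -/
def enum : Prog :=
  .seq (.assign 22 (.lit 0)) (For 18 16 (.seq decode (.seq check (.seq value update))))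

/-- Copy the best roles. -/
def commit : Prog := For 10 9 (.store 1 (.reg 10) (.lit 0) (at0 4 (.reg 10)))

/-- Three more points. -/
def step : Prog :=
  .seq marks (.seq marks3 (.seq esize (.seq enum commit)))

/-- All steps. -/
def steps : Prog :=
  .seq (.assign 8 (.lit 0)) (.seq (.assign 9 (.lit 3)) (For 7 2
    (.seq step (.seq (.assign 8 (.reg 9)) (.assign 9 (.succ (.succ (.succ (.reg 9)))))))))

/-- Point 12 comes before point 10. -/
def tOut : Test :=
  .and (.eq (at0 5 (at0 1 (.reg 12))) (at0 5 (at0 1 (.reg 10))))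
    (orT (.lt (at0 1 (.reg 12)) (at0 1 (.reg 10)))
      (.and (.eq (at0 1 (.reg 12)) (at0 1 (.reg 10))) (.lt (.reg 12) (.reg 10))))

/-- Output. -/
def output : Prog :=
  For 10 3 (.seq (countP 12 3 13 tOut)
    (.store 0 (.reg 13) (at0 5 (at0 1 (.reg 10))) (.reg 10)))

/-- The whole program. -/
def algo : Prog :=
  .seq c3n (.seq c2f (.seq cneg (.seq ctab (.seq cK (.seq cV (.seq steps output))))))

end Pool.Agent.H614R2.Tri
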