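import Mathlib
import Pool.Agent.H614R2.Tri.Cand

set_option autoImplicit false

/-! From balanced assignments to partitions into triangles and back. -/

namespace Pool.Agent.H614R2.Tri

open Finset

/-- Triangle number of the point `p`. -/
def idx (N : ℕ) (φ : ℕ → ℕ) (p : ℕ) : ℕ :=
  #{p' ∈ range N | φ p' % 3 = φ p % 3 ∧ (φ p' < φ p ∨ (φ p' = φ p ∧ p' < p))}

/-- Number of triangles with a label below `t`. -/
def off (N : ℕ) (φ : ℕ → ℕ) (t : ℕ) : ℕ := ∑ u ∈ range t, cnt N φ (3 * u)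

theorem off_mono (N : ℕ) (φ : ℕ → ℕ) {s t : ℕ} (h : s ≤ t) : off N φ s ≤ off N φ t :=
  Finset.sum_le_sum_of_subset (Finset.range_subset_range.mpr h)

theorem bal_cnt {q N : ℕ} {φ : ℕ → ℕ} (h : Bal (3 * q) N φ) (u j : ℕ) (hj : j < 3) :
    cnt N φ (3 * u + j) = cnt N φ (3 * u) := by
  by_cases hu : u < q
  · have h0 := h.2 (3 * u) (by omega) (by omega)
    have h1 := h.2 (3 * u + 1) (by omega) (by omega)
    have : j = 0 ∨ j = 1 ∨ j = 2 := by omega
    rcases this with rfl | rfl | rfl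
    · rfl
    · exact h0.symm
    · rw [h0, h1]
  · have hz : ∀ r, 3 * q ≤ r → cnt N φ r = 0 := by
      intro r hr
      unfold cnt
      rw [Finset.card_eq_zero, Finset.filter_eq_empty_iff]
      intro p hp hpr
      have := h.1 p (Finset.mem_range.mp hp)
      omega
    rw [hz _ (by omega), hz _ (by omega)]

theorem card_below {q N : ℕ} {φ : ℕ → ℕ} (h : Bal (3 * q) N φ) (t j : ℕ) (hj : j < 3) :
    #{p ∈ range N | φ p % 3 = j ∧ φ p < 3 * t + j} = off N φ t := by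
  rw [Finset.card_eq_sum_card_fiberwise (f := fun p => φ p / 3) (t := range t)]
  · unfold off
    apply Finset.sum_congr rfl
    intro u hu
    rw [← bal_cnt h u j hj]
    unfold cnt
    congr 1
    ext p
    simp only [Finset.mem_filter, Finset.mem_range] at hu ⊢
    constructor
    · rintro ⟨⟨h1, h2, h3⟩, h4⟩
      exact ⟨h1, by omega⟩
    · rintro ⟨h1, h2⟩
      exact ⟨⟨h1, by omega, by omega⟩, by omega⟩
  · intro p hp
    simp only [Finset.coe_filter, Finset.mem_range, Set.mem_ofPred_eq] at hp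
    simp only [Finset.coe_range, Set.mem_Iio]
    omega

theorem idx_eq {q N : ℕ} {φ : ℕ → ℕ} (h : Bal (3 * q) N φ) (p : ℕ) :
    idx N φ p = off N φ (φ p / 3) + #{p' ∈ range N | φ p' = φ p ∧ p' < p} := by
  rw [← card_below h (φ p / 3) (φ p % 3) (Nat.mod_lt _ (by norm_num)), ← Finset.card_union_of_disjoint]
  · unfold idx
    congr 1
    ext p'
    simp only [Finset.mem_filter, Finset.mem_union, Finset.mem_range]
    have : 3 * (φ p / 3) + φ p % 3 = φ p := Nat.div_add_mod _ _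
    rw [this]
    constructor
    · rintro ⟨h1, h2, h3 | h3⟩
      · exact Or.inl ⟨h1, h2, h3⟩
      · exact Or.inr ⟨h1, h3⟩
    · rintro (⟨h1, h2, h3⟩ | ⟨h1, h2, h3⟩)
      · exact ⟨h1, h2, Or.inl h3⟩
      · exact ⟨h1, by rw [h2], Or.inr ⟨h2, h3⟩⟩
  · rw [Finset.disjoint_left]
    intro p' h1 h2
    simp only [Finset.mem_filter] at h1 h2
    omega

theorem rank_lt {N : ℕ} {φ : ℕ → ℕ} {p : ℕ} (hp : p < N) :
    #{p' ∈ range N | φ p' = φ p ∧ p' < p} < cnt N φ (φ p) := by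
  unfold cnt
  apply Finset.card_lt_card
  rw [Finset.ssubset_iff_of_subset]
  · exact ⟨p, by simp [hp], by simp⟩
  · intro x hx
    simp only [Finset.mem_filter] at hx ⊢
    exact ⟨hx.1, hx.2.1⟩

theorem idx_lt_off {q N : ℕ} {φ : ℕ → ℕ} (h : Bal (3 * q) N φ) {p : ℕ} (hp : p < N) :
    idx N φ p < off N φ (φ p / 3 + 1) := by
  rw [idx_eq h]
  unfold off
  rw [Finset.sum_range_succ]
  have h1 := rank_lt (φ := φ) hp
  have h2 := bal_cnt h (φ p / 3) (φ p % 3) (Nat.mod_lt _ (by norm_num))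
  rw [Nat.div_add_mod] at h2
  omega

theorem off_le_idx {q N : ℕ} {φ : ℕ → ℕ} (h : Bal (3 * q) N φ) (p : ℕ) :
    off N φ (φ p / 3) ≤ idx N φ p := by
  rw [idx_eq h]; omega

theorem label_eq {q N : ℕ} {φ : ℕ → ℕ} (h : Bal (3 * q) N φ) {p p' : ℕ} (hp : p < N)
    (hp' : p' < N) (he : idx N φ p = idx N φ p') : φ p / 3 = φ p' / 3 := by
  rcases lt_trichotomy (φ p / 3) (φ p' / 3) with h1 | h1 | h1
  · have h2 := idx_lt_off h hp
    have h3 := off_mono N φ (show φ p / 3 + 1 ≤ φ p' / 3 by omega)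
    have h4 := off_le_idx h p'
    omega
  · exact h1
  · have h2 := idx_lt_off h hp'
    have h3 := off_mono N φ (show φ p' / 3 + 1 ≤ φ p / 3 by omega)
    have h4 := off_le_idx h p
    omega

theorem idx_inj {q N : ℕ} {φ : ℕ → ℕ} (h : Bal (3 * q) N φ) {p p' : ℕ} (hp : p < N)
    (hp' : p' < N) (he : idx N φ p = idx N φ p') (hm : φ p % 3 = φ p' % 3) : p = p' := by
  have h1 := label_eq h hp hp' he
  have h2 : φ p = φ p' := by omega
  by_contra hne
  wlog hlt : p < p' generalizing p p'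
  · exact this hp' hp he.symm hm.symm h1.symm h2.symm (Ne.symm hne) (by omega)
  have h3 : idx N φ p < idx N φ p' := by
    unfold idx
    apply Finset.card_lt_card
    rw [Finset.ssubset_iff_of_subset]
    · exact ⟨p, by simp [hp, h2, hlt], by simp⟩
    · intro x hx
      simp only [Finset.mem_filter] at hx ⊢
      refine ⟨hx.1, by rw [← hm]; exact hx.2.1, ?_⟩
      rcases hx.2.2 with h4 | h4
      · left; omega
      · right; exact ⟨by omega, by omega⟩
  omega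

theorem sum_cnt {N : ℕ} {φ : ℕ → ℕ} {R : ℕ} (h : ∀ p < N, φ p < R) :
    ∑ r ∈ range R, cnt N φ r = N := by
  unfold cnt
  rw [← Finset.card_eq_sum_card_fiberwise]
  · simp
  · intro p hp
    simp only [Finset.coe_range, Set.mem_Iio] at hp ⊢
    exact h p hp

theorem sum_three (q : ℕ) (g : ℕ → ℕ) :
    ∑ r ∈ range (3 * q), g r = ∑ u ∈ range q, (g (3 * u) + g (3 * u + 1) + g (3 * u + 2)) := by
  induction q with
  | zero => simp
  | succ q ih =>
    have : 3 * (q + 1) = 3 * q + 1 + 1 + 1 := by ring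
    rw [this, Finset.sum_range_succ, Finset.sum_range_succ, Finset.sum_range_succ, ih,
      Finset.sum_range_succ]
    ring

theorem off_total {q n : ℕ} {φ : ℕ → ℕ} (h : Bal (3 * q) (3 * n) φ) : off (3 * n) φ q = n := by
  have h1 := sum_cnt h.1
  rw [sum_three] at h1
  have h2 : ∑ u ∈ range q, (cnt (3 * n) φ (3 * u) + cnt (3 * n) φ (3 * u + 1) +
      cnt (3 * n) φ (3 * u + 2)) = 3 * off (3 * n) φ q := by
    unfold off
    rw [Finset.mul_sum]
    apply Finset.sum_congr rfl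
    intro u _
    rw [bal_cnt h u 1 (by norm_num), bal_cnt h u 2 (by norm_num)]
    ring
  omega

theorem idx_lt {q n : ℕ} {φ : ℕ → ℕ} (h : Bal (3 * q) (3 * n) φ) {p : ℕ} (hp : p < 3 * n) :
    idx (3 * n) φ p < n := by
  have h1 := idx_lt_off h hp
  have h2 := h.1 p hp
  have h3 := off_mono (3 * n) φ (show φ p / 3 + 1 ≤ q by omega)
  rw [off_total h] at h3
  omega

/-- First functional of a role. -/
def oF (m r : ℕ) : ℕ :=
  if r % 3 = 0 then r / 3 / m / m else if r % 3 = 1 then r / 3 / m % m else r / 3 % m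

/-- Second functional of a role. -/
def iF (m r : ℕ) : ℕ :=
  if r % 3 = 0 then r / 3 % m else if r % 3 = 1 then r / 3 / m / m else r / 3 / m % m

/-- Weight of a role for a point. -/
def wt (m : ℕ) (V : ℕ → ℕ → ℝ) (p r : ℕ) : ℝ := V p (oF m r) - V p (iF m r)

/-- Code of a label. -/
def lab (m s₁ s₂ s₃ : ℕ) : ℕ := (s₁ * m + s₂) * m + s₃

theorem lab_lt {m s₁ s₂ s₃ : ℕ} (h₁ : s₁ < m) (h₂ : s₂ < m) (h₃ : s₃ < m) :
    lab m s₁ s₂ s₃ < m * m * m := by
  unfold lab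
  have h4 : s₁ * m + s₂ < m * m := by nlinarith
  nlinarith

theorem lab_mod {m s₁ s₂ s₃ : ℕ} (h₃ : s₃ < m) : lab m s₁ s₂ s₃ % m = s₃ := by
  unfold lab
  rw [Nat.mul_add_mod_self_right, Nat.mod_eq_of_lt h₃]

theorem lab_div {m s₁ s₂ s₃ : ℕ} (h₃ : s₃ < m) : lab m s₁ s₂ s₃ / m = s₁ * m + s₂ := by
  unfold lab
  rw [Nat.add_comm, Nat.add_mul_div_right _ _ (by omega), Nat.div_eq_of_lt h₃, zero_add]

theorem lab_div_mod {m s₁ s₂ s₃ : ℕ} (h₂ : s₂ < m) (h₃ : s₃ < m) :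
    lab m s₁ s₂ s₃ / m % m = s₂ := by
  rw [lab_div h₃, Nat.mul_add_mod_self_right, Nat.mod_eq_of_lt h₂]

theorem lab_div_div {m s₁ s₂ s₃ : ℕ} (h₂ : s₂ < m) (h₃ : s₃ < m) :
    lab m s₁ s₂ s₃ / m / m = s₁ := by
  rw [lab_div h₃, Nat.add_comm, Nat.add_mul_div_right _ _ (by omega), Nat.div_eq_of_lt h₂, zero_add]

theorem oF0 {m s₁ s₂ s₃ : ℕ} (h₂ : s₂ < m) (h₃ : s₃ < m) : oF m (3 * lab m s₁ s₂ s₃) = s₁ := by
  unfold oF
  rw [if_pos (by omega), show 3 * lab m s₁ s₂ s₃ / 3 = lab m s₁ s₂ s₃ by omega]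
  exact lab_div_div h₂ h₃

theorem oF1 {m s₁ s₂ s₃ : ℕ} (h₂ : s₂ < m) (h₃ : s₃ < m) :
    oF m (3 * lab m s₁ s₂ s₃ + 1) = s₂ := by
  unfold oF
  rw [if_neg (by omega), if_pos (by omega),
    show (3 * lab m s₁ s₂ s₃ + 1) / 3 = lab m s₁ s₂ s₃ by omega]
  exact lab_div_mod h₂ h₃

theorem oF2 {m s₁ s₂ s₃ : ℕ} (h₃ : s₃ < m) :
    oF m (3 * lab m s₁ s₂ s₃ + 2) = s₃ := by
  unfold oF
  rw [if_neg (by omega), if_neg (by omega),
    show (3 * lab m s₁ s₂ s₃ + 2) / 3 = lab m s₁ s₂ s₃ by omega]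
  exact lab_mod h₃

theorem iF0 {m s₁ s₂ s₃ : ℕ} (h₃ : s₃ < m) : iF m (3 * lab m s₁ s₂ s₃) = s₃ := by
  unfold iF
  rw [if_pos (by omega), show 3 * lab m s₁ s₂ s₃ / 3 = lab m s₁ s₂ s₃ by omega]
  exact lab_mod h₃

theorem iF1 {m s₁ s₂ s₃ : ℕ} (h₂ : s₂ < m) (h₃ : s₃ < m) :
    iF m (3 * lab m s₁ s₂ s₃ + 1) = s₁ := by
  unfold iF
  rw [if_neg (by omega), if_pos (by omega),
    show (3 * lab m s₁ s₂ s₃ + 1) / 3 = lab m s₁ s₂ s₃ by omega]
  exact lab_div_div h₂ h₃

theorem iF2 {m s₁ s₂ s₃ : ℕ} (h₂ : s₂ < m) (h₃ : s₃ < m) :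
    iF m (3 * lab m s₁ s₂ s₃ + 2) = s₂ := by
  unfold iF
  rw [if_neg (by omega), if_neg (by omega),
    show (3 * lab m s₁ s₂ s₃ + 2) / 3 = lab m s₁ s₂ s₃ by omega]
  exact lab_div_mod h₂ h₃

/-- Total perimeter. -/
def tot {n : ℕ} (d : ℕ → ℕ → ℝ) (T : Fin n → Fin 3 → Fin (3 * n)) : ℝ :=
  ∑ i, (d (T i 0) (T i 1) + d (T i 1) (T i 2) + d (T i 2) (T i 0))

theorem val_eq {n : ℕ} (w : ℕ → ℕ → ℝ) (φ : ℕ → ℕ) (T : Fin n → Fin 3 → Fin (3 * n))
    (hT : Function.Bijective fun q : Fin n × Fin 3 => T q.1 q.2) :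
    val w (3 * n) φ = ∑ i, (w (T i 0) (φ (T i 0)) + w (T i 1) (φ (T i 1)) +
      w (T i 2) (φ (T i 2))) := by
  unfold val
  rw [← Fin.sum_univ_eq_sum_range (fun p => w p (φ p)) (3 * n),
    ← (Equiv.ofBijective _ hT).sum_comp, Fintype.sum_prod_type]
  apply Finset.sum_congr rfl
  intro i _
  rw [Fin.sum_univ_three]
  rfl

/-- The partition computed by the algorithm is optimal. -/
theorem final_math {n m : ℕ} (V : ℕ → ℕ → ℝ) (d : ℕ → ℕ → ℝ)
    (hd1 : ∀ p < 3 * n, ∀ p' < 3 * n, ∀ σ < m, V p σ - V p' σ ≤ d p p')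
    (hd2 : ∀ p < 3 * n, ∀ p' < 3 * n, ∃ σ < m, V p σ - V p' σ = d p p')
    (φ : ℕ → ℕ) (hφ : Opt (3 * (m * m * m)) (3 * n) (wt m V) φ) (out : ℕ → ℕ → ℕ)
    (hout : ∀ p < 3 * n, out (idx (3 * n) φ p) (φ p % 3) = p) :
    ∃ T : Fin n → Fin 3 → Fin (3 * n), (Function.Bijective fun q : Fin n × Fin 3 => T q.1 q.2) ∧
      (∀ i j, ((T i j : Fin (3 * n)) : ℕ) = out i j) ∧
      ∀ T' : Fin n → Fin 3 → Fin (3 * n), (Function.Bijective fun q : Fin n × Fin 3 => T' q.1 q.2) →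
        tot d T' ≤ tot d T := by
  classical
  let g : Fin (3 * n) → Fin n × Fin 3 := fun p =>
    (⟨idx (3 * n) φ p, idx_lt hφ.1 p.2⟩, ⟨φ p % 3, Nat.mod_lt _ (by norm_num)⟩)
  have hg : Function.Injective g := by
    intro p p' h
    simp only [g, Prod.mk.injEq, Fin.mk.injEq] at h
    exact Fin.ext (idx_inj hφ.1 p.2 p'.2 h.1 h.2)
  have hgb : Function.Bijective g := by
    rw [Fintype.bijective_iff_injective_and_card]
    refine ⟨hg, by simp [mul_comm]⟩
  let e := Equiv.ofBijective g hgb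
  let T : Fin n → Fin 3 → Fin (3 * n) := fun i j => e.symm (i, j)
  have hTg : ∀ i j, g (T i j) = (i, j) := fun i j => e.apply_symm_apply (i, j)
  have hTb : Function.Bijective fun q : Fin n × Fin 3 => T q.1 q.2 := e.symm.bijective
  have hidx : ∀ i j, idx (3 * n) φ (T i j) = i := fun i j => by
    have := congrArg (fun q => (q.1 : ℕ)) (hTg i j)
    exact this
  have hpos : ∀ i j, φ (T i j) % 3 = j := fun i j => by
    have := congrArg (fun q => (q.2 : ℕ)) (hTg i j)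
    exact this
  refine ⟨T, hTb, ?_, ?_⟩
  · intro i j
    have := hout (T i j) (T i j).2
    rw [hidx, hpos] at this
    exact this.symm
  · -- lower bound for the computed partition
    have hlow : val (wt m V) (3 * n) φ ≤ tot d T := by
      rw [val_eq _ _ T hTb]
      unfold tot
      apply Finset.sum_le_sum
      intro i _
      have l01 := label_eq hφ.1 (T i 0).2 (T i 1).2 ((hidx i 0).trans (hidx i 1).symm)
      have l02 := label_eq hφ.1 (T i 0).2 (T i 2).2 ((hidx i 0).trans (hidx i 2).symm)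
      have p0 := hpos i 0
      have p1 := hpos i 1
      have p2 := hpos i 2
      have v0 : ((0 : Fin 3) : ℕ) = 0 := rfl
      have v1 : ((1 : Fin 3) : ℕ) = 1 := rfl
      have v2 : ((2 : Fin 3) : ℕ) = 2 := rfl
      rw [v0] at p0
      rw [v1] at p1
      rw [v2] at p2
      set t := φ (T i 0) / 3 with ht
      have e0 : φ (T i 0) = 3 * t := by omega
      have e1 : φ (T i 1) = 3 * t + 1 := by omega
      have e2 : φ (T i 2) = 3 * t + 2 := by omega
      have hr0 := hφ.1.1 _ (T i 0).2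
      have htlt : t < m * m * m := by omega
      have hm : 0 < m := by
        rcases Nat.eq_zero_or_pos m with h | h
        · subst h; simp at htlt
        · exact h
      have h3 : t % m < m := Nat.mod_lt _ hm
      have h2 : t / m % m < m := Nat.mod_lt _ hm
      have h1 : t / m / m < m := by
        rw [Nat.div_lt_iff_lt_mul hm, Nat.div_lt_iff_lt_mul hm]
        exact htlt
      have hlab : t = lab m (t / m / m) (t / m % m) (t % m) := by
        unfold lab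
        rw [Nat.div_add_mod' (t / m) m, Nat.div_add_mod' t m]
      rw [e0, e1, e2]
      unfold wt
      rw [hlab, oF0 h2 h3, oF1 h2 h3, oF2 h3, iF0 h3, iF1 h2 h3, iF2 h2 h3]
      have g1 := hd1 _ (T i 0).2 _ (T i 1).2 _ h1
      have g2 := hd1 _ (T i 1).2 _ (T i 2).2 _ h2
      have g3 := hd1 _ (T i 2).2 _ (T i 0).2 _ h3
      linarith
    intro T' hT'
    choose σ hσ1 hσ2 using hd2
    let s₁ : Fin n → ℕ := fun i => σ (T' i 0) (T' i 0).2 (T' i 1) (T' i 1).2
    let s₂ : Fin n → ℕ := fun i => σ (T' i 1) (T' i 1).2 (T' i 2) (T' i 2).2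
    let s₃ : Fin n → ℕ := fun i => σ (T' i 2) (T' i 2).2 (T' i 0) (T' i 0).2
    let e' := Equiv.ofBijective _ hT'
    let ψ : ℕ → ℕ := fun p => if h : p < 3 * n then
      3 * lab m (s₁ (e'.symm ⟨p, h⟩).1) (s₂ (e'.symm ⟨p, h⟩).1) (s₃ (e'.symm ⟨p, h⟩).1) +
        (e'.symm ⟨p, h⟩).2 else 0
    have hψ : ∀ i j, ψ (T' i j) = 3 * lab m (s₁ i) (s₂ i) (s₃ i) + (j : ℕ) := by
      intro i j
      have h1 : e'.symm (T' i j) = (i, j) := by
        rw [Equiv.symm_apply_eq]; rfl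
      simp only [ψ, (T' i j).2, dif_pos, Fin.eta, h1]
    have hl1 : ∀ i, s₁ i < m := fun i => hσ1 _ _ _ _
    have hl2 : ∀ i, s₂ i < m := fun i => hσ1 _ _ _ _
    have hl3 : ∀ i, s₃ i < m := fun i => hσ1 _ _ _ _
    have hcnt : ∀ u j, j < 3 → cnt (3 * n) ψ (3 * u + j) =
        #{i : Fin n | lab m (s₁ i) (s₂ i) (s₃ i) = u} := by
      intro u j hj
      unfold cnt
      symm
      apply Finset.card_bij (fun i _ => (T' i ⟨j, hj⟩ : ℕ))
      · intro i hi
        simp only [Finset.mem_filter, Finset.mem_univ, true_and] at hi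
        simp only [Finset.mem_filter, Finset.mem_range]
        refine ⟨(T' i ⟨j, hj⟩).2, ?_⟩
        rw [hψ, hi]
      · intro i _ i' _ h
        have := hT'.1 (a₁ := (i, ⟨j, hj⟩)) (a₂ := (i', ⟨j, hj⟩)) (Fin.ext h)
        exact congrArg Prod.fst this
      · intro p hp
        simp only [Finset.mem_filter, Finset.mem_range] at hp
        obtain ⟨⟨i, j'⟩, hij⟩ := hT'.2 ⟨p, hp.1⟩
        have hval : (T' i j' : ℕ) = p := congrArg Fin.val hij
        have h1 := hp.2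
        rw [← hval, hψ] at h1
        have h2 := j'.2
        have h3 : (j' : ℕ) = j := by omega
        have h4 : j' = ⟨j, hj⟩ := Fin.ext h3
        subst h4
        refine ⟨i, ?_, hval⟩
        simp only [Finset.mem_filter, Finset.mem_univ, true_and]
        omega
    have hbal : Bal (3 * (m * m * m)) (3 * n) ψ := by
      refine ⟨?_, ?_⟩
      · intro p hp
        obtain ⟨⟨i, j⟩, hij⟩ := hT'.2 ⟨p, hp⟩
        have hval : (T' i j : ℕ) = p := congrArg Fin.val hij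
        rw [← hval, hψ]
        have h1 := lab_lt (hl1 i) (hl2 i) (hl3 i)
        have h2 := j.2
        omega
      · intro r _ h3
        have hr : r = 3 * (r / 3) + r % 3 := (Nat.div_add_mod _ _).symm
        have h4 : r % 3 < 3 := Nat.mod_lt _ (by norm_num)
        have h5 : r + 1 = 3 * (r / 3) + (r % 3 + 1) := by omega
        have h6 := hcnt (r / 3) (r % 3) h4
        have h7 := hcnt (r / 3) (r % 3 + 1) (by omega)
        rw [← hr] at h6
        rw [← h5] at h7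
        rw [h6, h7]
    have hup : val (wt m V) (3 * n) ψ = tot d T' := by
      rw [val_eq _ _ T' hT']
      unfold tot
      apply Finset.sum_congr rfl
      intro i _
      rw [hψ, hψ, hψ]
      have v0 : ((0 : Fin 3) : ℕ) = 0 := rfl
      have v1 : ((1 : Fin 3) : ℕ) = 1 := rfl
      have v2 : ((2 : Fin 3) : ℕ) = 2 := rfl
      rw [v0, v1, v2, add_zero]
      unfold wt
      rw [oF0 (hl2 i) (hl3 i), oF1 (hl2 i) (hl3 i), oF2 (hl3 i), iF0 (hl3 i), iF1 (hl2 i) (hl3 i),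
        iF2 (hl2 i) (hl3 i)]
      have g1 := hσ2 _ (T' i 0).2 _ (T' i 1).2
      have g2 := hσ2 _ (T' i 1).2 _ (T' i 2).2
      have g3 := hσ2 _ (T' i 2).2 _ (T' i 0).2
      simp only [s₁, s₂, s₃]
      linarith
    rw [← hup]
    exact (hφ.2 ψ hbal).trans hlow

end Pool.Agent.H614R2.Tri
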