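import Mathlib
import Pool.Agent.H614R2.Tri.Code
import Pool.Agent.H614R2.Tri.Cand

set_option autoImplicit false

/-! Verification of one step of the program: counting and marking. -/

namespace Pool.Agent.H614R2.Tri

open Finset

variable {L : ℕ}

theorem H.count {x y acc : ℕ} {t : Test} {m : Mem} {N : ℕ}
    (hw : (x == y || acc == y || acc == x) = false) (hN : m.v y = N) (hNL : N ≤ L) (P : ℕ → Prop) [DecidablePred P]
    (ht : ∀ i < N, ∀ u, t.holds ((m.setV acc u).setV x i) ↔ P i) {Q : Mem → Prop}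
    (hQ : Q ((m.setV acc #{i ∈ range N | P i}).setV x N)) :
    H L (countP x y acc t) m Q := by
  simp only [Bool.or_eq_false_iff, beq_eq_false_iff_ne] at hw
  obtain ⟨⟨hxy, hay⟩, hax⟩ := hw
  have hxa : x ≠ acc := fun h => hax h.symm
  refine H.seq (H.assign ?_)
  refine H.for x y ?_ N (fun i m' => m' = (m.setV acc #{i ∈ range i | P i}).setV x i)
      ?_ hNL ?_ ?_ ?_
  · simp [Prog.wv, hxa, hxy, hay.symm]
  · simp [hay.symm, hN]
  · simp [IExpr.eval]
  · intro i hi m' _ _ hm'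
    subst hm'
    refine H.ite (fun h => H.assign ?_) (fun h => H.skip ?_)
    · have hP : P i := (ht i hi _).mp h
      have : #{j ∈ range (i + 1) | P j} = #{j ∈ range i | P j} + 1 := by
        rw [Finset.range_add_one, Finset.filter_insert, if_pos hP,
          Finset.card_insert_of_notMem (by simp)]
      rw [this]
      ext z
      · simp only [setV_v, IExpr.eval]
        by_cases h3 : z = x
        · simp [h3]
        · by_cases h4 : z = acc
          · simp [h4, hax]
          · simp [h3, h4]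
      · rfl
      · rfl
    · have hP : ¬ P i := fun hP => h ((ht i hi _).mpr hP)
      have : #{j ∈ range (i + 1) | P j} = #{j ∈ range i | P j} := by
        rw [Finset.range_add_one, Finset.filter_insert, if_neg hP]
      rw [this]
      ext z
      · simp only [setV_v]
        by_cases h3 : z = x
        · simp [h3]
        · simp [h3]
      · rfl
      · rfl
  · rintro m' _ _ rfl
    exact hQ

/-- The facts about the memory that do not change in the main phase. -/
structure Ctx (R K : ℕ) (w : ℕ → ℕ → ℝ) (m : Mem) : Prop where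
  v5 : m.v 5 = R
  v6 : m.v 6 = K
  pos : ∀ r < R, m.a 5 r 0 = r % 3
  wt : ∀ p, ∀ r < R, m.r 2 p (m.a 6 r 0) - m.r 2 p (m.a 7 r 0) = w p r

theorem Ctx.congr {R K : ℕ} {w : ℕ → ℕ → ℝ} {m m' : Mem} (h : Ctx R K w m)
    (h5 : m'.v 5 = m.v 5) (h6 : m'.v 6 = m.v 6) (ha5 : m'.a 5 = m.a 5) (ha6 : m'.a 6 = m.a 6)
    (ha7 : m'.a 7 = m.a 7) (hr2 : m'.r 2 = m.r 2) : Ctx R K w m' :=
  ⟨h5.trans h.v5, h6.trans h.v6, by rw [ha5]; exact h.pos, by rw [ha6, ha7, hr2]; exact h.wt⟩

theorem Ctx.same {R K : ℕ} {w : ℕ → ℕ → ℝ} {m m' : Mem} {c : Prog} (h : Ctx R K w m)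
    (hs : Same c m m')
    (hw : (c.wv 5 || c.wv 6 || c.wa 5 || c.wa 6 || c.wa 7 || c.wr 2) = false) :
    Ctx R K w m' := by
  simp only [Bool.or_eq_false_iff] at hw
  obtain ⟨⟨⟨⟨⟨h5, h6⟩, ha5⟩, ha6⟩, ha7⟩, hr2⟩ := hw
  exact h.congr (hs.v 5 h5) (hs.v 6 h6) (hs.a 5 ha5) (hs.a 6 ha6) (hs.a 7 ha7) (hs.r 2 hr2)

variable {R K N : ℕ} {w : ℕ → ℕ → ℝ} {φ : ℕ → ℕ}

theorem marks_spec (m : Mem) (hc : Ctx R K w m) (h8 : m.v 8 = N) (hφ : ∀ p, m.a 1 p 0 = φ p)
    (hφR : ∀ p < N, φ p < R) (hN : N ≤ L) (hR : R ≤ L) :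
    H L marks m (fun m' => ∀ p < N, (m'.a 2 p 0 = 1 ↔ Cand R N K w φ p)) := by
  classical
  refine H.for 10 8 (by rfl) N (fun i m' => ∀ p < i, (m'.a 2 p 0 = 1 ↔ Cand R N K w φ p))
      h8 hN (by simp) ?_ (fun m' _ _ h => h)
  intro p hp m1 hs1 h10 hinv
  have hc1 := hc.same hs1 (by rfl)
  have h81 : m1.v 8 = N := (hs1.v 8 rfl).trans h8
  have hφ1 : ∀ p, m1.a 1 p 0 = φ p := fun p => by rw [hs1.a 1 rfl]; exact hφ p
  refine H.seq (H.store ?_)
  simp only [IExpr.eval, h10]
  refine H.for 11 5 (by rfl) R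
    (fun r m' => (∀ p' < p, (m'.a 2 p' 0 = 1 ↔ Cand R N K w φ p')) ∧
    (m'.a 2 p 0 = 1 ↔ ∃ r' < r, rk N w φ r' p < K)) ?_ hR ?_ ?_ ?_
  · simpa using hc1.v5
  · refine ⟨?_, ?_⟩
    · intro p' hp'
      simp only [setV_a, setA_a]
      rw [if_neg (by omega)]
      exact hinv p' hp'
    · simp
  · intro r hr m2 hs2 h11 hinv2
    have hc2 : Ctx R K w m2 := (hc1.congr rfl rfl rfl rfl rfl rfl :
      Ctx R K w (m1.setA 2 p 0 0)).same hs2 (by rfl)
    have h82 : m2.v 8 = N := (hs2.v 8 rfl).trans h81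
    have h102 : m2.v 10 = p := (hs2.v 10 rfl).trans h10
    have hφ2 : ∀ p, m2.a 1 p 0 = φ p := fun p => by rw [hs2.a 1 rfl]; exact hφ1 p
    refine H.seq (H.count (by rfl) h82 hN (fun p' => Bt w φ r p' p) ?_ ?_)
    · intro i hi u
      have hc3 : Ctx R K w ((m2.setV 13 u).setV 12 i) := hc2.congr rfl rfl rfl rfl rfl rfl
      have e1 : ((m2.setV 13 u).setV 12 i).v 10 = p := h102
      have e2 : ((m2.setV 13 u).setV 12 i).v 11 = r := h11
      have e3 : ((m2.setV 13 u).setV 12 i).v 12 = i := rfl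
      have e4 : ∀ q, ((m2.setV 13 u).setV 12 i).a 1 q 0 = φ q := hφ2
      generalize (m2.setV 13 u).setV 12 i = m3 at *
      simp only [tBt, orT, Test.holds, at0, gE, wE, RExpr.eval, IExpr.eval, e1, e2, e3, e4, Bt,
        gn]
      rw [hc3.wt _ _ hr, hc3.wt _ _ hr, hc3.wt _ _ (hφR i hi), hc3.wt _ _ (hφR p hp)]
      tauto
    · have hrk : #{i ∈ range N | Bt w φ r i p} = rk N w φ r p := by
        unfold rk; congr
      rw [hrk]
      have hex : (∃ r' < r + 1, rk N w φ r' p < K) ↔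
          (∃ r' < r, rk N w φ r' p < K) ∨ rk N w φ r p < K := by
        constructor
        · rintro ⟨r', h1, h2⟩
          rcases Nat.lt_succ_iff_lt_or_eq.mp h1 with h3 | h3
          · exact Or.inl ⟨r', h3, h2⟩
          · subst h3; exact Or.inr h2
        · rintro (⟨r', h1, h2⟩ | h2)
          · exact ⟨r', by omega, h2⟩
          · exact ⟨r, by omega, h2⟩
      refine H.ite (fun h => H.store ?_) (fun h => H.skip ?_)
      · simp only [Test.holds, IExpr.eval, setV_v] at h
        simp only [IExpr.eval, setV_v, setV_a, setA_a, hex]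
        have h6 : m2.v 6 = K := hc2.v6
        refine ⟨?_, ?_⟩
        · intro p' hp'
          rw [if_neg (by simp [h102]; omega)]
          exact hinv2.1 p' hp'
        · simp [h102]
          right
          simpa [h6] using h
      · simp only [Test.holds, IExpr.eval, setV_v] at h
        simp only [setV_a, hex]
        have h6 : m2.v 6 = K := hc2.v6
        refine ⟨hinv2.1, ?_⟩
        rw [hinv2.2]
        constructor
        · exact Or.inl
        · rintro (h1 | h1)
          · exact h1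
          · exfalso; apply h; simpa [h6] using h1
  · rintro m' _ _ ⟨h1, h2⟩ p' hp'
    simp only [setV_a]
    rcases Nat.lt_succ_iff_lt_or_eq.mp hp' with h3 | h3
    · exact h1 p' h3
    · subst h3; exact h2

end Pool.Agent.H614R2.Tri
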