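import Mathlib
import Pool.Agent.H614R2.Tri.V1

set_option autoImplicit false

/-! Verification of one step of the program. -/

namespace Pool.Agent.H614R2.Tri

open Finset

variable {L : ℕ} {R K N : ℕ} {w : ℕ → ℕ → ℝ} {φ : ℕ → ℕ}

/-- Body of the innermost loops: `z := z + 1`. -/
theorem incr_spec {x y z n : ℕ} (hw : (x == y || z == y || z == x) = false) (m : Mem)
    (hy : m.v y = n) (hn : n ≤ L) {Q : Mem → Prop}
    (hQ : Q ((m.setV z (m.v z + n)).setV x n)) :
    H L (For x y (.assign z (.succ (.reg z)))) m Q := by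
  simp only [Bool.or_eq_false_iff, beq_eq_false_iff_ne] at hw
  obtain ⟨⟨hxy, hzy⟩, hzx⟩ := hw
  have hxz : x ≠ z := fun h => hzx h.symm
  refine H.for x y ?_ n (fun i m' => m' = (m.setV z (m.v z + i)).setV x i) hy hn ?_ ?_ ?_
  · simp [Prog.wv, hxy, hxz, hzy.symm]
  · ext q
    · simp only [setV_v, add_zero]
      by_cases h1 : q = x
      · simp [h1]
      · by_cases h2 : q = z
        · simp [h2]
        · simp [h2]
    · rfl
    · rfl
  · rintro i hi m' _ _ rfl
    refine H.assign ?_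
    ext q
    · simp only [setV_v, IExpr.eval]
      by_cases h1 : q = x
      · simp [h1]
      · by_cases h2 : q = z
        · simp [h2, hzx, add_assoc]
        · simp [h1, h2]
    · rfl
    · rfl
  · rintro m' _ _ rfl
    exact hQ

theorem marks3_spec (m : Mem) (h8 : m.v 8 = N) :
    H L marks3 m (fun m' => (∀ p, p < N ∨ N + 3 ≤ p → m'.a 2 p 0 = m.a 2 p 0) ∧
      ∀ p, N ≤ p → p < N + 3 → m'.a 2 p 0 = 1) := by
  refine H.seq (H.store (H.seq (H.store (H.store ?_))))
  simp only [IExpr.eval, setA_v, h8, setA_a]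
  refine ⟨?_, ?_⟩
  · intro p hp
    rw [if_neg (by omega), if_neg (by omega), if_neg (by omega)]
  · intro p h1 h2
    have : p = N ∨ p = N + 1 ∨ p = N + 2 := by omega
    rcases this with h | h | h <;> subst h <;> simp

theorem esize_spec (m : Mem) (h9 : m.v 9 = N) (h5 : m.v 5 = R) (hN : N ≤ L) (hR : R ≤ L)
    (hR1 : 1 ≤ R) (hE : R ^ mk (fun p => m.a 2 p 0 = 1) N ≤ L) :
    H L esize m (fun m' => m'.v 16 = R ^ mk (fun p => m.a 2 p 0 = 1) N) := by
  refine H.seq (H.assign ?_)
  refine H.for 10 9 (by rfl) N (fun i m' => m'.v 16 = R ^ mk (fun p => m.a 2 p 0 = 1) i) ?_ hN ?_ ?_ ?_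
  · simpa using h9
  · simp [IExpr.eval, mk]
  · intro i hi m1 hs1 h10 hinv
    have h91 : m1.v 9 = N := (hs1.v 9 rfl).trans h9
    have h51 : m1.v 5 = R := (hs1.v 5 rfl).trans h5
    have h2 : m1.a 2 = m.a 2 := hs1.a 2 rfl
    refine H.ite (fun h => ?_) (fun h => H.skip ?_)
    · have hM : m.a 2 i 0 = 1 := by
        simpa [Test.holds, at0, IExpr.eval, h10, h2] using h
      have hle : R ^ mk (fun p => m.a 2 p 0 = 1) i ≤ L :=
        (Nat.pow_le_pow_right hR1 (mk_mono _ hi.le)).trans hE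
      refine H.seq (H.assign (H.seq ?_))
      refine H.for 24 16 (by rfl) (R ^ mk (fun p => m.a 2 p 0 = 1) i)
        (fun j m' => m'.v 17 = j * R) ?_ hle ?_ ?_ ?_
      · simpa using hinv
      · simp [IExpr.eval]
      · intro j hj m2 hs2 h24 h17
        have h52 : m2.v 5 = R := (hs2.v 5 rfl).trans h51
        refine incr_spec (by rfl) m2 h52 hR ?_
        simp [h17, add_mul]
      · intro m2 hs2 _ h17
        refine H.assign ?_
        simp only [setV_v, IExpr.eval, h17]
        rw [mk_succ, if_pos hM, pow_succ]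
        simp
    · have hM : ¬ m.a 2 i 0 = 1 := by
        simpa [Test.holds, at0, IExpr.eval, h10, h2] using h
      simp only [setV_v]
      rw [mk_succ, if_neg hM, add_zero]
      simpa using hinv
  · intro m' _ _ h
    exact h

theorem cdiv_spec (m : Mem) {y : ℕ} (h19 : m.v 19 = y) (h5 : m.v 5 = R) (hy : y ≤ L)
    (hR1 : 1 ≤ R) :
    H L cdiv m (fun m' => m'.v 21 = y / R ∧ m'.v 25 = y % R) := by
  refine H.seq (H.assign (H.seq (H.assign ?_)))
  refine H.for 24 19 (by rfl) y (fun j m' => m'.v 21 = j / R ∧ m'.v 25 = j % R) ?_ hy ?_ ?_ ?_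
  · simpa using h19
  · simp [IExpr.eval]
  · rintro j hj m1 hs1 h24 ⟨h21, h25⟩
    have h51 : m1.v 5 = R := (hs1.v 5 rfl).trans h5
    refine H.seq (H.assign (H.ite (fun h => ?_) (fun h => H.skip ?_)))
    · simp only [Test.holds, IExpr.eval, setV_v] at h
      simp only [h25, h51] at h
      norm_num at h
      refine H.seq (H.assign (H.assign ?_))
      simp only [setV_v, IExpr.eval]
      norm_num
      have hd : (j + 1) = R * (j / R + 1) := by
        have := Nat.div_add_mod j R
        rw [mul_add]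
        omega
      refine ⟨?_, ?_⟩
      · rw [h21, hd, Nat.mul_div_cancel_left _ (by omega)]
      · rw [hd, Nat.mul_mod_right]
    · simp only [Test.holds, IExpr.eval, setV_v] at h
      simp only [h25, h51] at h
      norm_num at h
      simp only [setV_v, IExpr.eval]
      norm_num
      have hlt : j % R < R := Nat.mod_lt _ (by omega)
      have hd : j + 1 = (j % R + 1) + R * (j / R) := by
        have := Nat.div_add_mod j R
        omega
      refine ⟨?_, ?_⟩
      · rw [h21]
        conv_rhs => rw [hd]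
        rw [Nat.add_mul_div_left _ _ (by omega),
          Nat.div_eq_of_lt (show j % R + 1 < R by omega), zero_add]
      · rw [h25]
        conv_rhs => rw [hd]
        rw [Nat.add_mul_mod_self_left, Nat.mod_eq_of_lt (show j % R + 1 < R by omega)]
  · intro m' _ _ h
    exact h

theorem decode_spec (m : Mem) {x : ℕ} (h18 : m.v 18 = x) (h9 : m.v 9 = N) (h5 : m.v 5 = R)
    (hφ : ∀ p, m.a 1 p 0 = φ p) (hx : x ≤ L) (hN : N ≤ L) (hR1 : 1 ≤ R) :
    H L decode m (fun m' => ∀ p < N, m'.a 3 p 0 = dec R (fun p => m.a 2 p 0 = 1) φ x p) := by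
  refine H.seq (H.assign ?_)
  refine H.for 10 9 (by rfl) N (fun i m' => (∀ p < i, m'.a 3 p 0 = dec R (fun p => m.a 2 p 0 = 1) φ x p) ∧
    m'.v 19 = x / R ^ mk (fun p => m.a 2 p 0 = 1) i) ?_ hN ?_ ?_ ?_
  · simpa using h9
  · simp [IExpr.eval, mk, h18]
  · rintro i hi m1 hs1 h10 ⟨hinv, h19⟩
    have h51 : m1.v 5 = R := (hs1.v 5 rfl).trans h5
    have h2 : m1.a 2 = m.a 2 := hs1.a 2 rfl
    have h1 : m1.a 1 = m.a 1 := hs1.a 1 rfl
    refine H.ite (fun h => ?_) (fun h => H.store ?_)
    · have hM : m.a 2 i 0 = 1 := by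
        simpa [Test.holds, at0, IExpr.eval, h10, h2] using h
      refine H.seq ((cdiv_spec m1 h19 h51 ((Nat.div_le_self _ _).trans hx) hR1).next ?_)
      rintro m2 hs2 ⟨h21, h25⟩
      refine H.seq (H.store (H.assign ?_))
      have h102 : m2.v 10 = i := (hs2.v 10 rfl).trans h10
      have h32 : m2.a 3 = m1.a 3 := hs2.a 3 rfl
      simp only [IExpr.eval, setA_v, setV_v, setV_a, setA_a, h102, h25, h21, h32]
      refine ⟨?_, ?_⟩
      · intro p hp
        rcases Nat.lt_succ_iff_lt_or_eq.mp hp with h3 | h3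
        · rw [if_neg (by omega)]
          exact hinv p h3
        · subst h3
          simp [dec, hM]
      · rw [mk_succ, if_pos hM, pow_succ, ← Nat.div_div_eq_div_mul]
        simp
    · have hM : ¬ m.a 2 i 0 = 1 := by
        simpa [Test.holds, at0, IExpr.eval, h10, h2] using h
      simp only [IExpr.eval, setA_v, setV_v, setV_a, setA_a, h10, at0, h1, hφ]
      refine ⟨?_, ?_⟩
      · intro p hp
        rcases Nat.lt_succ_iff_lt_or_eq.mp hp with h3 | h3
        · rw [if_neg (by omega)]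
          exact hinv p h3
        · subst h3
          simp [dec, hM]
      · rw [mk_succ, if_neg hM, add_zero]
        simpa using h19
  · rintro m' _ _ ⟨h, _⟩
    exact h

theorem check_spec (m : Mem) (hc : Ctx R K w m) (h9 : m.v 9 = N) {ψ : ℕ → ℕ}
    (hψ : ∀ p < N, m.a 3 p 0 = ψ p) (hψR : ∀ p < N, ψ p < R) (hN : N ≤ L) (hR : R ≤ L) :
    H L check m (fun m' => m'.v 23 = 1 ↔ Bal R N ψ) := by
  refine H.seq (H.assign ?_)
  refine H.for 11 5 (by rfl) R (fun r m' => m'.v 23 = 1 ↔ ∀ r' < r, r' % 3 ≠ 2 →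
    cnt N ψ r' = cnt N ψ (r' + 1)) ?_ hR ?_ ?_ ?_
  · simpa using hc.v5
  · simp [IExpr.eval]
  · intro r hr m1 hs1 h11 hinv
    have hc1 : Ctx R K w m1 := (hc.congr rfl rfl rfl rfl rfl rfl :
      Ctx R K w (m.setV 23 1)).same hs1 (by rfl)
    have h91 : m1.v 9 = N := (hs1.v 9 rfl).trans h9
    have h3 : m1.a 3 = m.a 3 := hs1.a 3 rfl
    have hsucc : (∀ r' < r + 1, r' % 3 ≠ 2 → cnt N ψ r' = cnt N ψ (r' + 1)) ↔
        (∀ r' < r, r' % 3 ≠ 2 → cnt N ψ r' = cnt N ψ (r' + 1)) ∧
          (r % 3 ≠ 2 → cnt N ψ r = cnt N ψ (r + 1)) := by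
      constructor
      · intro h
        exact ⟨fun r' h1 => h r' (by omega), h r (by omega)⟩
      · rintro ⟨h1, h2⟩ r' h4 h5
        rcases Nat.lt_succ_iff_lt_or_eq.mp h4 with h6 | h6
        · exact h1 r' h6 h5
        · subst h6; exact h2 h5
    refine H.ite (fun h => H.skip ?_) (fun h => ?_)
    · have hr2 : r % 3 = 2 := by
        simpa [Test.holds, at0, IExpr.eval, h11, hc1.pos r hr] using h
      have e : (m1.setV 11 (r + 1)).v 23 = m1.v 23 := rfl
      rw [hsucc, e, hinv]
      exact ⟨fun h => ⟨h, fun h' => absurd hr2 h'⟩, fun h => h.1⟩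
    · have hr2 : ¬ r % 3 = 2 := by
        simpa [Test.holds, at0, IExpr.eval, h11, hc1.pos r hr] using h
      refine H.seq (H.count (by rfl) h91 hN (fun p => ψ p = r) ?_ (H.seq (H.count (by rfl) ?_ hN
        (fun p => ψ p = r + 1) ?_ ?_)))
      · intro i hi u
        simp [Test.holds, at0, IExpr.eval, h3, hψ i hi, h11]
      · simpa using h91
      · intro i hi u
        simp [Test.holds, at0, IExpr.eval, h3, hψ i hi, h11]
      · have hcn1 : #{i ∈ range N | ψ i = r} = cnt N ψ r := rfl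
        have hcn2 : #{i ∈ range N | ψ i = r + 1} = cnt N ψ (r + 1) := rfl
        rw [hcn1, hcn2]
        refine H.ite (fun h => H.skip ?_) (fun h => H.assign ?_)
        · simp only [Test.holds, IExpr.eval, setV_v] at h
          norm_num at h
          rw [hsucc]
          refine Iff.trans (b := m1.v 23 = 1) Iff.rfl ?_
          rw [hinv]
          exact ⟨fun h' => ⟨h', fun _ => h⟩, fun h' => h'.1⟩
        · simp only [Test.holds, IExpr.eval, setV_v] at h
          norm_num at h
          rw [hsucc]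
          constructor
          · intro h'
            exact absurd (show (0 : ℕ) = 1 from h') (by norm_num)
          · intro h'
            exact absurd (h'.2 hr2) h
  · intro m' _ _ h
    rw [h]
    unfold Bal
    exact ⟨fun h1 => ⟨hψR, h1⟩, fun h1 => h1.2⟩

theorem value_spec (m : Mem) (hc : Ctx R K w m) (h9 : m.v 9 = N) {ψ : ℕ → ℕ}
    (hψ : ∀ p < N, m.a 3 p 0 = ψ p) (hψR : ∀ p < N, ψ p < R) (hN : N ≤ L) :
    H L value m (fun m' => m'.r 3 0 0 = val w N ψ) := by
  refine H.seq (H.rstore ?_)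
  refine H.for 12 9 (by rfl) N (fun i m' => m'.r 3 0 0 = val w i ψ) ?_ hN ?_ ?_ ?_
  · simpa using h9
  · simp [IExpr.eval, RExpr.eval, val]
  · intro i hi m1 hs1 h12 hinv
    have hc1 : Ctx R K w m1 := (hc.congr rfl rfl rfl rfl rfl rfl :
      Ctx R K w (m.setR 3 0 0 0)).same hs1 (by rfl)
    have h3 : m1.a 3 = m.a 3 := hs1.a 3 rfl
    refine H.rstore ?_
    simp only [IExpr.eval, RExpr.eval, wE, at0, setV_r, setR_r, h12, h3, hψ i hi]
    simp only [and_self, if_true]
    rw [hc1.wt _ _ (hψR i hi), hinv]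
    unfold val
    rw [Finset.sum_range_succ]
  · intro m' _ _ h
    exact h

end Pool.Agent.H614R2.Tri
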