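import Mathlib
import Pool.Agent.H614R2.Tri.V2

set_option autoImplicit false

/-! Verification of one step of the program. -/

namespace Pool.Agent.H614R2.Tri

open Finset

variable {L : ℕ} {R K N : ℕ} {w : ℕ → ℕ → ℝ} {φ : ℕ → ℕ}

/-- Copying an array. -/
theorem copy_spec (m : Mem) (h9 : m.v 9 = N) (hN : N ≤ L) {a b : ℕ} (hab : a ≠ b)
    {Q : Mem → Prop}
    (hQ : ∀ m', Same (For 10 9 (.store a (.reg 10) (.lit 0) (at0 b (.reg 10)))) m m' →
      (∀ p < N, m'.a a p 0 = m.a b p 0) → Q m') :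
    H L (For 10 9 (.store a (.reg 10) (.lit 0) (at0 b (.reg 10)))) m Q := by
  refine H.for 10 9 (by rfl) N (fun i m' => ∀ p < i, m'.a a p 0 = m.a b p 0) h9 hN (by simp) ?_ ?_
  · intro i hi m1 hs1 h10 hinv
    refine H.store ?_
    have hb : m1.a b = m.a b := by
      apply hs1.a
      simp only [For, Prog.wa, Bool.or_false, Bool.false_or, beq_eq_false_iff_ne]
      exact fun h => hab h.symm
    intro p hp
    simp only [IExpr.eval, setV_a, setA_a, h10, at0, hb]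
    rcases Nat.lt_succ_iff_lt_or_eq.mp hp with h3 | h3
    · rw [if_neg (by omega)]
      exact hinv p h3
    · subst h3
      simp
  · intro m' hs _ h
    exact hQ m' hs h

/-- The state of the search after trying the codes below `x`. -/
def Best (R N : ℕ) (w : ℕ → ℕ → ℝ) (D : ℕ → ℕ → ℕ) (x : ℕ) (m : Mem) : Prop :=
  (m.v 22 = 0 ∧ ∀ y < x, ¬ Bal R N (D y)) ∨
  (m.v 22 = 1 ∧ ∃ y < x, Bal R N (D y) ∧ m.r 4 0 0 = val w N (D y) ∧
    (∀ p < N, m.a 4 p 0 = D y p) ∧ ∀ z < x, Bal R N (D z) → val w N (D z) ≤ val w N (D y))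

theorem update_spec (m : Mem) (h9 : m.v 9 = N) {D : ℕ → ℕ → ℕ} {x : ℕ}
    (hb : Best R N w D x m) (h23 : m.v 23 = 1 ↔ Bal R N (D x))
    (h3 : m.r 3 0 0 = val w N (D x)) (ha3 : ∀ p < N, m.a 3 p 0 = D x p) (hN : N ≤ L) :
    H L update m (Best R N w D (x + 1)) := by
  refine H.ite (fun h => ?_) (fun h => H.skip ?_)
  · simp only [Test.holds, orT, IExpr.eval, RExpr.eval, h23, h3] at h
    obtain ⟨h1, h2⟩ := h
    refine H.seq (H.assign (H.seq (H.rstore ?_)))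
    refine copy_spec (a := 4) (b := 3) _ (by simpa using h9) hN (by norm_num) ?_
    intro m' hs ha4
    right
    refine ⟨?_, x, by omega, h1, ?_, ?_, ?_⟩
    · rw [hs.v 22 rfl]; rfl
    · rw [hs.r 4 rfl]
      simp [IExpr.eval, RExpr.eval, h3]
    · intro p hp
      rw [ha4 p hp]
      exact ha3 p hp
    · intro z hz hbz
      rcases Nat.lt_succ_iff_lt_or_eq.mp hz with h4 | h4
      · rcases hb with ⟨_, h5⟩ | ⟨h5, y, _, _, h6, _, h7⟩
        · exact absurd hbz (h5 z h4)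
        · have h8 := h7 z h4 hbz
          rw [h5, h6] at h2
          have h9 : val w N (D y) < val w N (D x) := by
            by_contra hcon
            exact h2 ⟨by norm_num, hcon⟩
          linarith
      · subst h4; exact le_rfl
  · simp only [Test.holds, orT, IExpr.eval, RExpr.eval, h23, h3] at h
    rcases hb with ⟨h4, h5⟩ | ⟨h4, y, h5, h6, h7, h8, h9⟩
    · left
      refine ⟨h4, ?_⟩
      intro y hy
      rcases Nat.lt_succ_iff_lt_or_eq.mp hy with h6 | h6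
      · exact h5 y h6
      · subst h6
        intro hbal
        apply h
        exact ⟨hbal, fun h7 => h7.1 h4⟩
    · right
      refine ⟨h4, y, by omega, h6, h7, h8, ?_⟩
      intro z hz hbz
      rcases Nat.lt_succ_iff_lt_or_eq.mp hz with h10 | h10
      · exact h9 z h10 hbz
      · subst h10
        by_contra hcon
        push Not at hcon
        apply h
        refine ⟨hbz, fun h11 => h11.2 ?_⟩
        rw [h7]; exact hcon

theorem enum_spec (m : Mem) (hc : Ctx R K w m) (h9 : m.v 9 = N) {E : ℕ} (h16 : m.v 16 = E)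
    (hφ : ∀ p, m.a 1 p 0 = φ p) (hR1 : 1 ≤ R)
    (hφR : ∀ p < N, ¬ m.a 2 p 0 = 1 → φ p < R) (hN : N ≤ L) (hR : R ≤ L) (hE : E ≤ L) :
    H L enum m (Best R N w (dec R (fun p => m.a 2 p 0 = 1) φ) E) := by
  have hDR : ∀ x, ∀ p < N, dec R (fun p => m.a 2 p 0 = 1) φ x p < R := by
    intro x p hp
    unfold dec
    split_ifs with h
    · exact Nat.mod_lt _ (by omega)
    · exact hφR p hp h
  refine H.seq (H.assign ?_)
  refine H.for 18 16 (by rfl) E (fun x m' => Best R N w (dec R (fun p => m.a 2 p 0 = 1) φ) x m') ?_ hE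
    ?_ ?_ ?_
  · simpa using h16
  · left
    exact ⟨rfl, by simp⟩
  · intro x hx m1 hs1 h18 hinv
    have hc1 : Ctx R K w m1 := (hc.congr rfl rfl rfl rfl rfl rfl :
      Ctx R K w (m.setV 22 0)).same hs1 (by rfl)
    have h91 : m1.v 9 = N := (hs1.v 9 rfl).trans h9
    have h21 : m1.a 2 = m.a 2 := hs1.a 2 rfl
    have h11 : ∀ p, m1.a 1 p 0 = φ p := fun p => by rw [hs1.a 1 rfl]; exact hφ p
    refine H.seq ((decode_spec m1 h18 h91 hc1.v5 h11 (hx.le.trans hE) hN hR1).next ?_)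
    intro m2 hs2 hdec
    rw [h21] at hdec
    have hc2 : Ctx R K w m2 := hc1.same hs2 (by rfl)
    have h92 : m2.v 9 = N := (hs2.v 9 rfl).trans h91
    refine H.seq ((check_spec m2 hc2 h92 hdec (hDR x) hN hR).next ?_)
    intro m3 hs3 hchk
    have hc3 : Ctx R K w m3 := hc2.same hs3 (by rfl)
    have h93 : m3.v 9 = N := (hs3.v 9 rfl).trans h92
    have hdec3 : ∀ p < N, m3.a 3 p 0 = dec R (fun p => m.a 2 p 0 = 1) φ x p := by
      rw [hs3.a 3 rfl]; exact hdec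
    refine H.seq ((value_spec m3 hc3 h93 hdec3 (hDR x) hN).next ?_)
    intro m4 hs4 hval
    have h94 : m4.v 9 = N := (hs4.v 9 rfl).trans h93
    have hdec4 : ∀ p < N, m4.a 3 p 0 = dec R (fun p => m.a 2 p 0 = 1) φ x p := by
      rw [hs4.a 3 rfl]; exact hdec3
    have hchk4 : m4.v 23 = 1 ↔ Bal R N (dec R (fun p => m.a 2 p 0 = 1) φ x) := by
      rw [hs4.v 23 rfl]; exact hchk
    have hb4 : Best R N w (dec R (fun p => m.a 2 p 0 = 1) φ) x m4 := by
      unfold Best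
      rw [hs4.v 22 rfl, hs4.r 4 rfl, hs4.a 4 rfl, hs3.v 22 rfl, hs3.r 4 rfl, hs3.a 4 rfl,
        hs2.v 22 rfl, hs2.r 4 rfl, hs2.a 4 rfl]
      exact hinv
    refine (update_spec m4 h94 hb4 hchk4 hval hdec4 hN).post ?_
    intro m5 h5
    exact h5
  · intro m' _ _ h
    exact h

theorem step_spec (m : Mem) (hc : Ctx R K w m) {k : ℕ} (h8 : m.v 8 = 3 * k)
    (h9 : m.v 9 = 3 * k + 3) (hφ : ∀ p, m.a 1 p 0 = φ p) (hopt : Opt R (3 * k) w φ) (hR3 : 3 ≤ R)
    (hK : 3 * 4 ^ (2 ^ R - 1) ≤ K) (hN : 3 * k + 3 ≤ L) (hR : R ≤ L)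
    (hE : R ^ (R * R * K + 3) ≤ L) :
    H L step m (fun m' => Opt R (3 * k + 3) w (fun p => m'.a 1 p 0)) := by
  classical
  refine H.seq ((marks_spec m hc h8 hφ hopt.1.1 (by omega) hR).next ?_)
  intro m1 hs1 hm1
  have hc1 : Ctx R K w m1 := hc.same hs1 (by rfl)
  have h81 : m1.v 8 = 3 * k := (hs1.v 8 rfl).trans h8
  have h91 : m1.v 9 = 3 * k + 3 := (hs1.v 9 rfl).trans h9
  have hφ1 : ∀ p, m1.a 1 p 0 = φ p := fun p => by rw [hs1.a 1 rfl]; exact hφ p
  refine H.seq ((marks3_spec m1 h81).next ?_)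
  rintro m2 hs2 ⟨hm2, hm2'⟩
  have hc2 : Ctx R K w m2 := hc1.same hs2 (by rfl)
  have h82 : m2.v 8 = 3 * k := (hs2.v 8 rfl).trans h81
  have h92 : m2.v 9 = 3 * k + 3 := (hs2.v 9 rfl).trans h91
  have hφ2 : ∀ p, m2.a 1 p 0 = φ p := fun p => by rw [hs2.a 1 rfl]; exact hφ1 p
  have hM : ∀ p < 3 * k, (m2.a 2 p 0 = 1 ↔ Cand R (3 * k) K w φ p) := fun p hp => by
    rw [hm2 p (Or.inl hp)]; exact hm1 p hp
  have hmk : mk (fun p => m2.a 2 p 0 = 1) (3 * k + 3) ≤ R * R * K + 3 := by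
    rw [mk_succ, mk_succ, mk_succ]
    have h1 : mk (fun p => m2.a 2 p 0 = 1) (3 * k) ≤ R * R * K := by
      refine le_trans ?_ (card_cand R (3 * k) K w φ hopt.1.1)
      unfold mk
      apply Finset.card_le_card
      intro p hp
      rw [Finset.mem_filter] at hp ⊢
      exact ⟨hp.1, (hM p (Finset.mem_range.mp hp.1)).mp hp.2⟩
    split_ifs <;> omega
  have hEle : R ^ mk (fun p => m2.a 2 p 0 = 1) (3 * k + 3) ≤ L :=
    (Nat.pow_le_pow_right (by omega) hmk).trans hE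
  refine H.seq ((esize_spec m2 h92 hc2.v5 hN hR (by omega) hEle).next ?_)
  intro m3 hs3 h16
  have hc3 : Ctx R K w m3 := hc2.same hs3 (by rfl)
  have h93 : m3.v 9 = 3 * k + 3 := (hs3.v 9 rfl).trans h92
  have hφ3 : ∀ p, m3.a 1 p 0 = φ p := fun p => by rw [hs3.a 1 rfl]; exact hφ2 p
  have h23 : m3.a 2 = m2.a 2 := hs3.a 2 rfl
  have hstep := step_opt hR3 hK hopt (fun p => m2.a 2 p 0 = 1)
    (fun p hp hcand => (hM p hp).mpr hcand) (fun p h1 h2 => hm2' p h1 h2)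
  refine H.seq ((enum_spec m3 hc3 h93 h16 hφ3 (by omega) ?_ hN hR hEle).next ?_)
  · intro p hp hnm
    rw [h23] at hnm
    by_cases h1 : p < 3 * k
    · exact hopt.1.1 p h1
    · exact absurd (hm2' p (by omega) (by omega)) hnm
  · intro m4 hs4 hbest
    rw [h23] at hbest
    have h94 : m4.v 9 = 3 * k + 3 := (hs4.v 9 rfl).trans h93
    refine copy_spec m4 h94 hN (by norm_num) ?_
    intro m5 _ h5
    rcases hbest with ⟨_, h6⟩ | ⟨_, y, hy, h7, _, h8, h9⟩
    · obtain ⟨x, hx, hbx⟩ := hstep.1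
      exact absurd hbx (h6 x hx)
    · refine (hstep.2 y hy h7 h9).congr ?_
      intro p hp
      rw [h5 p hp, h8 p hp]

theorem steps_spec (m : Mem) (hc : Ctx R K w m) {n : ℕ} (h2 : m.v 2 = n) (hR3 : 3 ≤ R)
    (hK : 3 * 4 ^ (2 ^ R - 1) ≤ K) (hN : 3 * n ≤ L) (hR : R ≤ L)
    (hE : R ^ (R * R * K + 3) ≤ L) :
    H L steps m (fun m' => Opt R (3 * n) w (fun p => m'.a 1 p 0)) := by
  refine H.seq (H.assign (H.seq (H.assign ?_)))
  refine H.for 7 2 (by rfl) n (fun k m' => m'.v 8 = 3 * k ∧ m'.v 9 = 3 * k + 3 ∧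
    Opt R (3 * k) w (fun p => m'.a 1 p 0)) ?_ (by omega) ?_ ?_ ?_
  · simpa using h2
  · refine ⟨rfl, rfl, ⟨?_, ?_⟩, ?_⟩
    · intro p hp; omega
    · intro r _ _; simp [cnt]
    · intro ψ _; simp [val]
  · rintro k hk m1 hs1 h7 ⟨h8, h9, hopt⟩
    have hc1 : Ctx R K w m1 := (hc.congr rfl rfl rfl rfl rfl rfl :
      Ctx R K w ((m.setV 8 0).setV 9 3)).same hs1 (by rfl)
    refine H.seq ((step_spec m1 hc1 h8 h9 (fun p => rfl) hopt hR3 hK (by omega) hR hE).next ?_)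
    intro m2 hs2 hopt2
    have h92 : m2.v 9 = 3 * k + 3 := (hs2.v 9 rfl).trans h9
    refine H.seq (H.assign (H.assign ?_))
    refine ⟨?_, ?_, ?_⟩
    · show m2.v 9 = 3 * (k + 1)
      omega
    · show m2.v 9 + 1 + 1 + 1 = 3 * (k + 1) + 3
      omega
    · exact hopt2
  · rintro m' _ _ ⟨_, _, h⟩
    exact h

end Pool.Agent.H614R2.Tri
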