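import Mathlib
import Pool.Agent.H614R2.Tri.V3
import Pool.Agent.H614R2.Tri.Geo

set_option autoImplicit false

/-! Verification of the preparations and of the output. -/

namespace Pool.Agent.H614R2.Tri

open Finset

variable {L : ℕ}

theorem c3n_spec (m : Mem) {n : ℕ} (h2 : m.v 2 = n) (hn : n ≤ L) :
    H L c3n m (fun m' => m'.v 3 = 3 * n) := by
  refine H.seq (H.assign ?_)
  refine H.for 24 2 (by rfl) n (fun i m' => m'.v 3 = 3 * i) (by simpa using h2) hn rfl ?_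
    (fun m' _ _ h => h)
  intro i _ m1 _ _ hinv
  refine H.assign ?_
  show m1.v 3 + 1 + 1 + 1 = 3 * (i + 1)
  omega

theorem c2f_spec (m : Mem) {f : ℕ} (h0 : m.v 0 = f) (hf : f ≤ L) :
    H L c2f m (fun m' => m'.v 4 = 2 * f) := by
  refine H.seq (H.assign ?_)
  refine H.for 24 0 (by rfl) f (fun i m' => m'.v 4 = 2 * i) (by simpa using h0) hf rfl ?_
    (fun m' _ _ h => h)
  intro i _ m1 _ _ hinv
  refine H.assign ?_
  show m1.v 4 + 1 + 1 = 2 * (i + 1)
  omega

theorem cneg_spec (m : Mem) {f s : ℕ} (h0 : m.v 0 = f) (h1 : m.v 1 = s) (hf : f ≤ L)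
    (hs : s ≤ L) :
    H L cneg m (fun m' => (∀ i < f, ∀ j < s, m'.r 0 i j = m.r 0 i j) ∧
      ∀ i < f, ∀ j < s, m'.r 0 (f + i) j = - m.r 0 i j) := by
  refine H.seq (H.assign ?_)
  refine H.for 24 0 (by rfl) f (fun i m' => m'.v 25 = f + i ∧ (∀ i < f, ∀ j < s, m'.r 0 i j = m.r 0 i j) ∧
      ∀ i' < i, ∀ j < s, m'.r 0 (f + i') j = - m.r 0 i' j) (by simpa using h0) hf ?_ ?_
      (fun m' _ _ h => h.2)
  · refine ⟨?_, fun i _ j _ => rfl, by simp⟩
    simpa [IExpr.eval] using h0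
  · rintro i hi m1 hs1 h24 ⟨h25, ha, hb⟩
    refine H.seq ?_
    refine H.for 20 1 (by rfl) s (fun j m' => (∀ i < f, ∀ j < s, m'.r 0 i j = m.r 0 i j) ∧
      (∀ i' < i, ∀ j < s, m'.r 0 (f + i') j = - m.r 0 i' j) ∧
      ∀ j' < j, m'.r 0 (f + i) j' = - m.r 0 i j') ((hs1.v 1 rfl).trans h1) hs
      ⟨ha, hb, by simp⟩ ?_ ?_
    · rintro j hj m2 hs2 h20 ⟨ha2, hb2, hc2⟩
      have h252 : m2.v 25 = f + i := (hs2.v 25 rfl).trans h25
      have h242 : m2.v 24 = i := (hs2.v 24 rfl).trans h24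
      refine H.rstore ?_
      simp only [IExpr.eval, RExpr.eval, setV_r, setR_r, h252, h242, h20]
      refine ⟨?_, ?_, ?_⟩
      · intro i' hi' j' hj'
        rw [if_neg (by omega)]
        exact ha2 i' hi' j' hj'
      · intro i' hi' j' hj'
        rw [if_neg (by omega)]
        exact hb2 i' hi' j' hj'
      · intro j' hj'
        rcases Nat.lt_succ_iff_lt_or_eq.mp hj' with h3 | h3
        · rw [if_neg (by omega)]
          exact hc2 j' h3
        · subst h3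
          simp only [and_self, if_true]
          rw [ha2 i hi j' hj]
          ring
    · rintro m2 hs2 h20 ⟨ha2, hb2, hc2⟩
      have h252 : m2.v 25 = f + i := (hs2.v 25 rfl).trans h25
      refine H.assign ?_
      simp only [IExpr.eval, setV_v, setV_r, h252]
      refine ⟨by norm_num; omega, ha2, ?_⟩
      intro i' hi' j' hj'
      rcases Nat.lt_succ_iff_lt_or_eq.mp hi' with h3 | h3
      · exact hb2 i' h3 j' hj'
      · subst h3
        exact hc2 j' hj'

/-- The first `3 * c` entries of the tables. -/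
def Tab (q c : ℕ) (m : Mem) : Prop :=
  m.v 5 = 3 * c ∧ ∀ r < 3 * c, m.a 5 r 0 = r % 3 ∧ m.a 6 r 0 = oF q r ∧ m.a 7 r 0 = iF q r

theorem ctab3_spec (m : Mem) {q s₁ s₂ s₃ : ℕ} (h26 : m.v 26 = s₁) (h27 : m.v 27 = s₂)
    (h28 : m.v 28 = s₃) (h₂ : s₂ < q) (h₃ : s₃ < q) (ht : Tab q (lab q s₁ s₂ s₃) m) :
    H L ctab3 m (Tab q (lab q s₁ s₂ s₃ + 1)) := by
  obtain ⟨h5, ht⟩ := ht
  refine H.seq (H.store (H.seq (H.store (H.seq (H.store (H.seq (H.assign (H.seq (H.store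
    (H.seq (H.store (H.seq (H.store (H.seq (H.assign (H.seq (H.store (H.seq (H.store
    (H.seq (H.store (H.assign ?_))))))))))))))))))))))
  have o0 := oF0 (s₁ := s₁) h₂ h₃
  have o1 := oF1 (s₁ := s₁) h₂ h₃
  have o2 := oF2 (s₁ := s₁) (s₂ := s₂) h₃
  have i0 := iF0 (s₁ := s₁) (s₂ := s₂) h₃
  have i1 := iF1 (s₁ := s₁) h₂ h₃
  have i2 := iF2 (s₁ := s₁) h₂ h₃
  generalize lab q s₁ s₂ s₃ = c at *
  simp only [IExpr.eval, setA_v, setV_v]
  norm_num
  refine ⟨?_, ?_⟩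
  · simp only [setV_v, setA_v]
    norm_num
    omega
  · intro r hr
    simp only [setV_a, setA_a, h5, h26, h27, h28]
    norm_num
    have hcase : r < 3 * c ∨ r = 3 * c ∨ r = 3 * c + 1 ∨ r = 3 * c + 2 := by omega
    rcases hcase with h | h | h | h
    · rw [if_neg (by omega), if_neg (by omega), if_neg (by omega), if_neg (by omega),
        if_neg (by omega), if_neg (by omega), if_neg (by omega), if_neg (by omega),
        if_neg (by omega)]
      exact ht r h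
    · subst h
      simp [o0, i0]
      refine ⟨by omega, fun h => by omega, fun h => by omega⟩
    · subst h
      simp [o1, i1]
    · subst h
      simp [o2, i2]

theorem ctab_spec (m : Mem) {q : ℕ} (h4 : m.v 4 = q) (hq : q ≤ L) :
    H L ctab m (Tab q (q * q * q)) := by
  refine H.seq (H.assign ?_)
  refine H.for 26 4 (by rfl) q (fun i m' => Tab q (lab q i 0 0) m') (by simpa using h4) hq ?_ ?_ ?_
  · refine ⟨by simp [lab, IExpr.eval], ?_⟩
    intro r hr
    simp [lab] at hr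
  · intro s₁ h₁ m1 hs1 h26 ht
    refine H.for 27 4 (by rfl) q (fun i m' => Tab q (lab q s₁ i 0) m') ((hs1.v 4 rfl).trans h4) hq ht ?_ ?_
    · intro s₂ h₂ m2 hs2 h27 ht2
      refine H.for 28 4 (by rfl) q (fun i m' => Tab q (lab q s₁ s₂ i) m')
        ((hs2.v 4 rfl).trans ((hs1.v 4 rfl).trans h4)) hq ht2 ?_ ?_
      · intro s₃ h₃ m3 hs3 h28 ht3
        have h263 : m3.v 26 = s₁ := (hs3.v 26 rfl).trans ((hs2.v 26 rfl).trans h26)
        have h273 : m3.v 27 = s₂ := (hs3.v 27 rfl).trans h27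
        refine (ctab3_spec m3 h263 h273 h28 h₂ h₃ ht3).post ?_
        intro m' h
        have e : lab q s₁ s₂ (s₃ + 1) = lab q s₁ s₂ s₃ + 1 := by unfold lab; ring
        rw [e]
        exact h
      · intro m' _ _ h
        have e : lab q s₁ (s₂ + 1) 0 = lab q s₁ s₂ q := by unfold lab; ring
        rw [e]
        exact h
    · intro m' _ _ h
      have e : lab q (s₁ + 1) 0 0 = lab q s₁ q 0 := by unfold lab; ring
      rw [e]
      exact h
  · intro m' _ _ h
    have e : q * q * q = lab q q 0 0 := by unfold lab; ring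
    rw [e]
    exact h

theorem cK_spec (m : Mem) {R : ℕ} (h5 : m.v 5 = R) (hR : R ≤ L) (hK : 4 ^ (2 ^ R) ≤ L) :
    H L cK m (fun m' => m'.v 6 = 4 ^ (2 ^ R)) := by
  refine H.seq (H.assign ?_)
  refine H.for 24 5 (by rfl) R (fun i m' => m'.v 6 = 4 ^ (2 ^ i)) (by simpa using h5) hR (by rfl) ?_
    (fun m' _ _ h => h)
  intro i hi m1 hs1 h24 h6
  have hle : 4 ^ (2 ^ i) ≤ L :=
    (Nat.pow_le_pow_right (by norm_num) (Nat.pow_le_pow_right (by norm_num) hi.le)).trans hK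
  refine H.seq (H.assign (H.seq ?_))
  refine H.for 20 6 (by rfl) (4 ^ (2 ^ i)) (fun j m' => m'.v 17 = j * 4 ^ (2 ^ i)) ?_ hle ?_ ?_ ?_
  · simpa using h6
  · simp [IExpr.eval]
  · intro j hj m2 hs2 h20 h17
    have h62 : m2.v 6 = 4 ^ (2 ^ i) := (hs2.v 6 rfl).trans (by simpa using h6)
    refine incr_spec (by rfl) m2 h62 hle ?_
    simp [h17, add_mul]
  · intro m2 hs2 _ h17
    refine H.assign ?_
    show m2.v 17 = 4 ^ (2 ^ (i + 1))
    rw [h17, pow_succ, pow_mul]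
    ring

theorem cV_spec (m : Mem) {N q s : ℕ} (h3 : m.v 3 = N) (h4 : m.v 4 = q) (h1 : m.v 1 = s)
    (hN : N ≤ L) (hq : q ≤ L) (hs : s ≤ L) :
    H L cV m (fun m' => ∀ p < N, ∀ σ < q,
      m'.r 2 p σ = ∑ j ∈ range s, m.r 0 σ j * m.r 1 p j) := by
  refine H.for 10 3 (by rfl) N (fun i m' => ∀ p < i, ∀ σ < q,
      m'.r 2 p σ = ∑ j ∈ range s, m.r 0 σ j * m.r 1 p j) h3 hN (by simp) ?_ (fun m' _ _ h => h)
  intro p hp m1 hs1 h10 hinv
  refine H.for 11 4 (by rfl) q (fun i m' => (∀ p' < p, ∀ σ < q,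
      m'.r 2 p' σ = ∑ j ∈ range s, m.r 0 σ j * m.r 1 p' j) ∧ ∀ σ < i,
      m'.r 2 p σ = ∑ j ∈ range s, m.r 0 σ j * m.r 1 p j) ((hs1.v 4 rfl).trans h4) hq
      ⟨hinv, by simp⟩ ?_ ?_
  · rintro σ hσ m2 hs2 h11 ⟨ha, hb⟩
    have h102 : m2.v 10 = p := (hs2.v 10 rfl).trans h10
    refine H.seq (H.rstore (H.seq ?_))
    refine H.for 20 1 (by rfl) s (fun j m' => m'.r 3 0 0 = ∑ j ∈ range j, m.r 0 σ j * m.r 1 p j)
      ?_ hs ?_ ?_ ?_
    · exact (hs2.v 1 rfl).trans ((hs1.v 1 rfl).trans h1)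
    · simp [IExpr.eval, RExpr.eval]
    · intro j hj m3 hs3 h20 h30
      have h113 : m3.v 11 = σ := (hs3.v 11 rfl).trans h11
      have h103 : m3.v 10 = p := (hs3.v 10 rfl).trans h102
      have hr0 : m3.r 0 = m.r 0 := (hs3.r 0 rfl).trans ((hs2.r 0 rfl).trans (hs1.r 0 rfl))
      have hr1 : m3.r 1 = m.r 1 := (hs3.r 1 rfl).trans ((hs2.r 1 rfl).trans (hs1.r 1 rfl))
      refine H.rstore ?_
      simp only [IExpr.eval, RExpr.eval, setV_r, setR_r, h113, h103, h20, h30, hr0, hr1]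
      rw [Finset.sum_range_succ]
      simp
    · intro m3 hs3 _ h30
      have h113 : m3.v 11 = σ := (hs3.v 11 rfl).trans h11
      have h103 : m3.v 10 = p := (hs3.v 10 rfl).trans h102
      have hr2 : m3.r 2 = m2.r 2 := hs3.r 2 rfl
      refine H.rstore ?_
      simp only [IExpr.eval, RExpr.eval, setV_r, setR_r, h113, h103, h30, hr2]
      refine ⟨?_, ?_⟩
      · intro p' hp' σ' hσ'
        rw [if_neg (by omega)]
        exact ha p' hp' σ' hσ'
      · intro σ' hσ'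
        rcases Nat.lt_succ_iff_lt_or_eq.mp hσ' with h | h
        · rw [if_neg (by omega)]
          exact hb σ' h
        · subst h
          simp
  · rintro m2 _ _ ⟨ha, hb⟩ p' hp'
    simp only [setV_r]
    rcases Nat.lt_succ_iff_lt_or_eq.mp hp' with h | h
    · exact ha p' h
    · subst h
      exact hb

theorem output_spec (m : Mem) {N q : ℕ} {φ : ℕ → ℕ} (h3 : m.v 3 = N) (hN : N ≤ L)
    (hφ : ∀ p, m.a 1 p 0 = φ p) (hb : Bal (3 * q) N φ) (hpos : ∀ r < 3 * q, m.a 5 r 0 = r % 3) :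
    H L output m (fun m' => ∀ p < N, m'.a 0 (idx N φ p) (φ p % 3) = p) := by
  refine H.for 10 3 (by rfl) N (fun i m' => ∀ p < i, m'.a 0 (idx N φ p) (φ p % 3) = p) h3 hN (by simp) ?_
    (fun m' _ _ h => h)
  intro p hp m1 hs1 h10 hinv
  have h31 : m1.v 3 = N := (hs1.v 3 rfl).trans h3
  have h5 : m1.a 5 = m.a 5 := hs1.a 5 rfl
  have h1 : ∀ p, m1.a 1 p 0 = φ p := fun p => by rw [hs1.a 1 rfl]; exact hφ p
  refine H.seq (H.count (by rfl) h31 hN (fun p' => φ p' % 3 = φ p % 3 ∧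
    (φ p' < φ p ∨ (φ p' = φ p ∧ p' < p))) ?_ ?_)
  · intro i hi u
    simp only [tOut, orT, Test.holds, at0, IExpr.eval, setV_v, setV_a]
    norm_num
    rw [h10, h1, h1, h5, hpos _ (hb.1 i hi), hpos _ (hb.1 p hp)]
    refine and_congr_right fun _ => ?_
    rw [← not_lt]
    tauto
  · have hidx : #{p' ∈ range N | φ p' % 3 = φ p % 3 ∧ (φ p' < φ p ∨ (φ p' = φ p ∧ p' < p))} =
        idx N φ p := rfl
    rw [hidx]
    refine H.store ?_
    simp only [IExpr.eval, setV_v, setV_a, setA_a, at0]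
    norm_num
    rw [h10, h1, h5, hpos _ (hb.1 p hp)]
    intro p' hp'
    rcases Nat.lt_or_eq_of_le hp' with h | h
    · rw [if_neg]
      · exact hinv p' h
      · rintro ⟨h6, h7⟩
        have := idx_inj hb (by omega) hp h6 h7
        omega
    · subst h
      simp

end Pool.Agent.H614R2.Tri
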